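import Pool.Agent.H28.Honey.Shell

set_option autoImplicit false

/-! Closed forms of the moments of the hexagon. -/

namespace Pool.Agent.H28.Honey

open Finset

theorem inner0 (k : ℤ) (n : ℕ) :
    1 * ∑ i ∈ range n, (2 * k ^ 2 - 2 * k * (i : ℤ) + 2 * (i : ℤ) ^ 2) ^ 0
      = 1 * (n : ℤ) ^ 1 := by
  induction n with
  | zero => simp
  | succ n ih =>
    rw [sum_range_succ, mul_add, ih]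
    push_cast
    ring

theorem outer0 (R : ℕ) :
    1 * (6 * ∑ k ∈ range (R + 1), ∑ i ∈ range k,
        (2 * (k : ℤ) ^ 2 - 2 * (k : ℤ) * (i : ℤ) + 2 * (i : ℤ) ^ 2) ^ 0)
      = 3 * (R : ℤ) ^ 1 + 3 * (R : ℤ) ^ 2 := by
  induction R with
  | zero => simp
  | succ R ih =>
    rw [sum_range_succ, mul_add, mul_add, ih]
    have h := inner0 ((R + 1 : ℕ) : ℤ) (R + 1)
    have h2 : 1 * (6 * ∑ i ∈ range (R + 1),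
        (2 * ((R + 1 : ℕ) : ℤ) ^ 2 - 2 * ((R + 1 : ℕ) : ℤ) * (i : ℤ) + 2 * (i : ℤ) ^ 2) ^ 0)
        = 6 * (1 * ∑ i ∈ range (R + 1),
        (2 * ((R + 1 : ℕ) : ℤ) ^ 2 - 2 * ((R + 1 : ℕ) : ℤ) * (i : ℤ) + 2 * (i : ℤ) ^ 2) ^ 0) := by
      ring
    rw [h2, h]
    push_cast
    ring

/-- The moment of order 0 of the hexagon. -/
theorem hexmom0 (R : ℕ) :
    1 * ∑ x ∈ hexagon R, (x.1 ^ 2 + x.2 ^ 2 + (x.1 + x.2) ^ 2) ^ 0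
      = 1 + 3 * (R : ℤ) ^ 1 + 3 * (R : ℤ) ^ 2 := by
  have h1 := sum_hexagon_shell (s := R)
    (fun x => (x.1 ^ 2 + x.2 ^ 2 + (x.1 + x.2) ^ 2) ^ 0) (by intro w; ring)
  have h2 : ∀ k i : ℕ, (((k : ℤ)) ^ 2 + (-(i : ℤ)) ^ 2 + ((k : ℤ) + -(i : ℤ)) ^ 2) ^ 0
      = (2 * (k : ℤ) ^ 2 - 2 * (k : ℤ) * (i : ℤ) + 2 * (i : ℤ) ^ 2) ^ 0 := by
    intro k i
    ring
  simp only [h2] at h1
  have h3 := outer0 R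
  rw [h1]
  linarith

theorem inner1 (k : ℤ) (n : ℕ) :
    3 * ∑ i ∈ range n, (2 * k ^ 2 - 2 * k * (i : ℤ) + 2 * (i : ℤ) ^ 2) ^ 1
      = 6 * k ^ 2 * (n : ℤ) ^ 1 + (-3 * k ^ 1 * (n : ℤ) ^ 2) + 3 * k ^ 1 * (n : ℤ) ^ 1 + 2 * (n : ℤ) ^ 3 + (-3 * (n : ℤ) ^ 2) + 1 * (n : ℤ) ^ 1 := by
  induction n with
  | zero => simp
  | succ n ih =>
    rw [sum_range_succ, mul_add, ih]
    push_cast
    ring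

theorem outer1 (R : ℕ) :
    6 * (6 * ∑ k ∈ range (R + 1), ∑ i ∈ range k,
        (2 * (k : ℤ) ^ 2 - 2 * (k : ℤ) * (i : ℤ) + 2 * (i : ℤ) ^ 2) ^ 1)
      = 6 * (R : ℤ) ^ 1 + 21 * (R : ℤ) ^ 2 + 30 * (R : ℤ) ^ 3 + 15 * (R : ℤ) ^ 4 := by
  induction R with
  | zero => simp
  | succ R ih =>
    rw [sum_range_succ, mul_add, mul_add, ih]
    have h := inner1 ((R + 1 : ℕ) : ℤ) (R + 1)
    have h2 : 6 * (6 * ∑ i ∈ range (R + 1),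
        (2 * ((R + 1 : ℕ) : ℤ) ^ 2 - 2 * ((R + 1 : ℕ) : ℤ) * (i : ℤ) + 2 * (i : ℤ) ^ 2) ^ 1)
        = 12 * (3 * ∑ i ∈ range (R + 1),
        (2 * ((R + 1 : ℕ) : ℤ) ^ 2 - 2 * ((R + 1 : ℕ) : ℤ) * (i : ℤ) + 2 * (i : ℤ) ^ 2) ^ 1) := by
      ring
    rw [h2, h]
    push_cast
    ring

/-- The moment of order 1 of the hexagon. -/
theorem hexmom1 (R : ℕ) :
    2 * ∑ x ∈ hexagon R, (x.1 ^ 2 + x.2 ^ 2 + (x.1 + x.2) ^ 2) ^ 1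
      = 2 * (R : ℤ) ^ 1 + 7 * (R : ℤ) ^ 2 + 10 * (R : ℤ) ^ 3 + 5 * (R : ℤ) ^ 4 := by
  have h1 := sum_hexagon_shell (s := R)
    (fun x => (x.1 ^ 2 + x.2 ^ 2 + (x.1 + x.2) ^ 2) ^ 1) (by intro w; ring)
  have h2 : ∀ k i : ℕ, (((k : ℤ)) ^ 2 + (-(i : ℤ)) ^ 2 + ((k : ℤ) + -(i : ℤ)) ^ 2) ^ 1
      = (2 * (k : ℤ) ^ 2 - 2 * (k : ℤ) * (i : ℤ) + 2 * (i : ℤ) ^ 2) ^ 1 := by
    intro k i
    ring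
  simp only [h2] at h1
  have h3 := outer1 R
  rw [h1]
  linarith

theorem inner2 (k : ℤ) (n : ℕ) :
    15 * ∑ i ∈ range n, (2 * k ^ 2 - 2 * k * (i : ℤ) + 2 * (i : ℤ) ^ 2) ^ 2
      = 60 * k ^ 4 * (n : ℤ) ^ 1 + (-60 * k ^ 3 * (n : ℤ) ^ 2) + 60 * k ^ 3 * (n : ℤ) ^ 1 + 60 * k ^ 2 * (n : ℤ) ^ 3 + (-90 * k ^ 2 * (n : ℤ) ^ 2) + 30 * k ^ 2 * (n : ℤ) ^ 1 + (-30 * k ^ 1 * (n : ℤ) ^ 4) + 60 * k ^ 1 * (n : ℤ) ^ 3 + (-30 * k ^ 1 * (n : ℤ) ^ 2) + 12 * (n : ℤ) ^ 5 + (-30 * (n : ℤ) ^ 4) + 20 * (n : ℤ) ^ 3 + (-2 * (n : ℤ) ^ 1) := by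
  induction n with
  | zero => simp
  | succ n ih =>
    rw [sum_range_succ, mul_add, ih]
    push_cast
    ring

theorem outer2 (R : ℕ) :
    15 * (6 * ∑ k ∈ range (R + 1), ∑ i ∈ range k,
        (2 * (k : ℤ) ^ 2 - 2 * (k : ℤ) * (i : ℤ) + 2 * (i : ℤ) ^ 2) ^ 2)
      = (-6 * (R : ℤ) ^ 1) + 3 * (R : ℤ) ^ 2 + 60 * (R : ℤ) ^ 3 + 135 * (R : ℤ) ^ 4 + 126 * (R : ℤ) ^ 5 + 42 * (R : ℤ) ^ 6 := by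
  induction R with
  | zero => simp
  | succ R ih =>
    rw [sum_range_succ, mul_add, mul_add, ih]
    have h := inner2 ((R + 1 : ℕ) : ℤ) (R + 1)
    have h2 : 15 * (6 * ∑ i ∈ range (R + 1),
        (2 * ((R + 1 : ℕ) : ℤ) ^ 2 - 2 * ((R + 1 : ℕ) : ℤ) * (i : ℤ) + 2 * (i : ℤ) ^ 2) ^ 2)
        = 6 * (15 * ∑ i ∈ range (R + 1),
        (2 * ((R + 1 : ℕ) : ℤ) ^ 2 - 2 * ((R + 1 : ℕ) : ℤ) * (i : ℤ) + 2 * (i : ℤ) ^ 2) ^ 2) := by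
      ring
    rw [h2, h]
    push_cast
    ring

/-- The moment of order 2 of the hexagon. -/
theorem hexmom2 (R : ℕ) :
    5 * ∑ x ∈ hexagon R, (x.1 ^ 2 + x.2 ^ 2 + (x.1 + x.2) ^ 2) ^ 2
      = (-2 * (R : ℤ) ^ 1) + 1 * (R : ℤ) ^ 2 + 20 * (R : ℤ) ^ 3 + 45 * (R : ℤ) ^ 4 + 42 * (R : ℤ) ^ 5 + 14 * (R : ℤ) ^ 6 := by
  have h1 := sum_hexagon_shell (s := R)
    (fun x => (x.1 ^ 2 + x.2 ^ 2 + (x.1 + x.2) ^ 2) ^ 2) (by intro w; ring)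
  have h2 : ∀ k i : ℕ, (((k : ℤ)) ^ 2 + (-(i : ℤ)) ^ 2 + ((k : ℤ) + -(i : ℤ)) ^ 2) ^ 2
      = (2 * (k : ℤ) ^ 2 - 2 * (k : ℤ) * (i : ℤ) + 2 * (i : ℤ) ^ 2) ^ 2 := by
    intro k i
    ring
  simp only [h2] at h1
  have h3 := outer2 R
  rw [h1]
  linarith

theorem inner3 (k : ℤ) (n : ℕ) :
    105 * ∑ i ∈ range n, (2 * k ^ 2 - 2 * k * (i : ℤ) + 2 * (i : ℤ) ^ 2) ^ 3
      = 840 * k ^ 6 * (n : ℤ) ^ 1 + (-1260 * k ^ 5 * (n : ℤ) ^ 2) + 1260 * k ^ 5 * (n : ℤ) ^ 1 + 1680 * k ^ 4 * (n : ℤ) ^ 3 + (-2520 * k ^ 4 * (n : ℤ) ^ 2) + 840 * k ^ 4 * (n : ℤ) ^ 1 + (-1470 * k ^ 3 * (n : ℤ) ^ 4) + 2940 * k ^ 3 * (n : ℤ) ^ 3 + (-1470 * k ^ 3 * (n : ℤ) ^ 2) + 1008 * k ^ 2 * (n : ℤ) ^ 5 + (-2520 * k ^ 2 * (n : ℤ) ^ 4) + 1680 * k ^ 2 * (n : ℤ) ^ 3 + (-168 * k ^ 2 * (n : ℤ) ^ 1) + (-420 * k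 ^ 1 * (n : ℤ) ^ 6) + 1260 * k ^ 1 * (n : ℤ) ^ 5 + (-1050 * k ^ 1 * (n : ℤ) ^ 4) + 210 * k ^ 1 * (n : ℤ) ^ 2 + 120 * (n : ℤ) ^ 7 + (-420 * (n : ℤ) ^ 6) + 420 * (n : ℤ) ^ 5 + (-140 * (n : ℤ) ^ 3) + 20 * (n : ℤ) ^ 1 := by
  induction n with
  | zero => simp
  | succ n ih =>
    rw [sum_range_succ, mul_add, ih]
    push_cast
    ring

theorem outer3 (R : ℕ) :
    210 * (6 * ∑ k ∈ range (R + 1), ∑ i ∈ range k,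
        (2 * (k : ℤ) ^ 2 - 2 * (k : ℤ) * (i : ℤ) + 2 * (i : ℤ) ^ 2) ^ 3)
      = 120 * (R : ℤ) ^ 1 + (-96 * (R : ℤ) ^ 2) + (-588 * (R : ℤ) ^ 3) + 63 * (R : ℤ) ^ 4 + 2520 * (R : ℤ) ^ 5 + 4326 * (R : ℤ) ^ 6 + 2988 * (R : ℤ) ^ 7 + 747 * (R : ℤ) ^ 8 := by
  induction R with
  | zero => simp
  | succ R ih =>
    rw [sum_range_succ, mul_add, mul_add, ih]
    have h := inner3 ((R + 1 : ℕ) : ℤ) (R + 1)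
    have h2 : 210 * (6 * ∑ i ∈ range (R + 1),
        (2 * ((R + 1 : ℕ) : ℤ) ^ 2 - 2 * ((R + 1 : ℕ) : ℤ) * (i : ℤ) + 2 * (i : ℤ) ^ 2) ^ 3)
        = 12 * (105 * ∑ i ∈ range (R + 1),
        (2 * ((R + 1 : ℕ) : ℤ) ^ 2 - 2 * ((R + 1 : ℕ) : ℤ) * (i : ℤ) + 2 * (i : ℤ) ^ 2) ^ 3) := by
      ring
    rw [h2, h]
    push_cast
    ring

/-- The moment of order 3 of the hexagon. -/
theorem hexmom3 (R : ℕ) :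
    70 * ∑ x ∈ hexagon R, (x.1 ^ 2 + x.2 ^ 2 + (x.1 + x.2) ^ 2) ^ 3
      = 40 * (R : ℤ) ^ 1 + (-32 * (R : ℤ) ^ 2) + (-196 * (R : ℤ) ^ 3) + 21 * (R : ℤ) ^ 4 + 840 * (R : ℤ) ^ 5 + 1442 * (R : ℤ) ^ 6 + 996 * (R : ℤ) ^ 7 + 249 * (R : ℤ) ^ 8 := by
  have h1 := sum_hexagon_shell (s := R)
    (fun x => (x.1 ^ 2 + x.2 ^ 2 + (x.1 + x.2) ^ 2) ^ 3) (by intro w; ring)
  have h2 : ∀ k i : ℕ, (((k : ℤ)) ^ 2 + (-(i : ℤ)) ^ 2 + ((k : ℤ) + -(i : ℤ)) ^ 2) ^ 3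
      = (2 * (k : ℤ) ^ 2 - 2 * (k : ℤ) * (i : ℤ) + 2 * (i : ℤ) ^ 2) ^ 3 := by
    intro k i
    ring
  simp only [h2] at h1
  have h3 := outer3 R
  rw [h1]
  linarith

theorem inner4 (k : ℤ) (n : ℕ) :
    315 * ∑ i ∈ range n, (2 * k ^ 2 - 2 * k * (i : ℤ) + 2 * (i : ℤ) ^ 2) ^ 4
      = 5040 * k ^ 8 * (n : ℤ) ^ 1 + (-10080 * k ^ 7 * (n : ℤ) ^ 2) + 10080 * k ^ 7 * (n : ℤ) ^ 1 + 16800 * k ^ 6 * (n : ℤ) ^ 3 + (-25200 * k ^ 6 * (n : ℤ) ^ 2) + 8400 * k ^ 6 * (n : ℤ) ^ 1 + (-20160 * k ^ 5 * (n : ℤ) ^ 4) + 40320 * k ^ 5 * (n : ℤ) ^ 3 + (-20160 * k ^ 5 * (n : ℤ) ^ 2) + 19152 * k ^ 4 * (n : ℤ) ^ 5 + (-47880 * k ^ 4 * (n : ℤ) ^ 4) + 31920 * k ^ 4 * (n : ℤ) ^ 3 + (-3192 * k ^ 4 * (n : ℤ) ^ 1) + (-13440 * k ^ 3 * (n : ℤ) ^ 6) + 40320 * k ^ 3 * (n : ℤ) ^ 5 + (-33600 * k ^ 3 * (n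 : ℤ) ^ 4) + 6720 * k ^ 3 * (n : ℤ) ^ 2 + 7200 * k ^ 2 * (n : ℤ) ^ 7 + (-25200 * k ^ 2 * (n : ℤ) ^ 6) + 25200 * k ^ 2 * (n : ℤ) ^ 5 + (-8400 * k ^ 2 * (n : ℤ) ^ 3) + 1200 * k ^ 2 * (n : ℤ) ^ 1 + (-2520 * k ^ 1 * (n : ℤ) ^ 8) + 10080 * k ^ 1 * (n : ℤ) ^ 7 + (-11760 * k ^ 1 * (n : ℤ) ^ 6) + 5880 * k ^ 1 * (n : ℤ) ^ 4 + (-1680 * k ^ 1 * (n : ℤ) ^ 2) + 560 * (n : ℤ) ^ 9 + (-2520 * (n : ℤ) ^ 8) + 3360 * (n : ℤ) ^ 7 + (-2352 * (n : ℤ) ^ 5) + 1120 * (n : ℤ) ^ 3 + (-168 * (n : ℤ) ^ 1) := by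
  induction n with
  | zero => simp
  | succ n ih =>
    rw [sum_range_succ, mul_add, ih]
    push_cast
    ring

theorem outer4 (R : ℕ) :
    1575 * (6 * ∑ k ∈ range (R + 1), ∑ i ∈ range k,
        (2 * (k : ℤ) ^ 2 - 2 * (k : ℤ) * (i : ℤ) + 2 * (i : ℤ) ^ 2) ^ 4)
      = (-2520 * (R : ℤ) ^ 1) + 2556 * (R : ℤ) ^ 2 + 9600 * (R : ℤ) ^ 3 + (-3120 * (R : ℤ) ^ 4) + (-20160 * (R : ℤ) ^ 5) + (-1512 * (R : ℤ) ^ 6) + 50400 * (R : ℤ) ^ 7 + 70020 * (R : ℤ) ^ 8 + 38280 * (R : ℤ) ^ 9 + 7656 * (R : ℤ) ^ 10 := by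
  induction R with
  | zero => simp
  | succ R ih =>
    rw [sum_range_succ, mul_add, mul_add, ih]
    have h := inner4 ((R + 1 : ℕ) : ℤ) (R + 1)
    have h2 : 1575 * (6 * ∑ i ∈ range (R + 1),
        (2 * ((R + 1 : ℕ) : ℤ) ^ 2 - 2 * ((R + 1 : ℕ) : ℤ) * (i : ℤ) + 2 * (i : ℤ) ^ 2) ^ 4)
        = 30 * (315 * ∑ i ∈ range (R + 1),
        (2 * ((R + 1 : ℕ) : ℤ) ^ 2 - 2 * ((R + 1 : ℕ) : ℤ) * (i : ℤ) + 2 * (i : ℤ) ^ 2) ^ 4) := by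
      ring
    rw [h2, h]
    push_cast
    ring

/-- The moment of order 4 of the hexagon. -/
theorem hexmom4 (R : ℕ) :
    525 * ∑ x ∈ hexagon R, (x.1 ^ 2 + x.2 ^ 2 + (x.1 + x.2) ^ 2) ^ 4
      = (-840 * (R : ℤ) ^ 1) + 852 * (R : ℤ) ^ 2 + 3200 * (R : ℤ) ^ 3 + (-1040 * (R : ℤ) ^ 4) + (-6720 * (R : ℤ) ^ 5) + (-504 * (R : ℤ) ^ 6) + 16800 * (R : ℤ) ^ 7 + 23340 * (R : ℤ) ^ 8 + 12760 * (R : ℤ) ^ 9 + 2552 * (R : ℤ) ^ 10 := by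
  have h1 := sum_hexagon_shell (s := R)
    (fun x => (x.1 ^ 2 + x.2 ^ 2 + (x.1 + x.2) ^ 2) ^ 4) (by intro w; ring)
  have h2 : ∀ k i : ℕ, (((k : ℤ)) ^ 2 + (-(i : ℤ)) ^ 2 + ((k : ℤ) + -(i : ℤ)) ^ 2) ^ 4
      = (2 * (k : ℤ) ^ 2 - 2 * (k : ℤ) * (i : ℤ) + 2 * (i : ℤ) ^ 2) ^ 4 := by
    intro k i
    ring
  simp only [h2] at h1
  have h3 := outer4 R
  rw [h1]
  linarith

theorem powsum2 (r : ℕ) :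
    3 * ∑ c ∈ Icc (-(r : ℤ)) r, c ^ 2 = 1 * (r : ℤ) ^ 1 + 3 * (r : ℤ) ^ 2 + 2 * (r : ℤ) ^ 3 := by
  rw [sum_Icc_even (fun c => c ^ 2) (by intro t; ring)]
  induction r with
  | zero => simp
  | succ r ih =>
    rw [sum_range_succ]
    push_cast at ih ⊢
    linarith

theorem powsum4 (r : ℕ) :
    15 * ∑ c ∈ Icc (-(r : ℤ)) r, c ^ 4 = (-1 * (r : ℤ) ^ 1) + 10 * (r : ℤ) ^ 3 + 15 * (r : ℤ) ^ 4 + 6 * (r : ℤ) ^ 5 := by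
  rw [sum_Icc_even (fun c => c ^ 4) (by intro t; ring)]
  induction r with
  | zero => simp
  | succ r ih =>
    rw [sum_range_succ]
    push_cast at ih ⊢
    linarith

theorem tri_sq (s : ℤ) (n : ℕ) :
    6 * ∑ k ∈ range n, (2 * s - (k : ℤ)) ^ 2
      = 24 * s ^ 2 * (n : ℤ) - 12 * s * (n : ℤ) * ((n : ℤ) - 1)
        + (n : ℤ) * ((n : ℤ) - 1) * (2 * (n : ℤ) - 1) := by
  induction n with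
  | zero => simp
  | succ n ih =>
    rw [sum_range_succ, mul_add, ih]
    push_cast
    ring

theorem rowSum_one (s t : ℕ) (ht : t ≤ s) :
    rowSum s (fun _ => 1) t = 2 * (s : ℤ) + 1 - t := by
  rw [rowSum_eq _ _ ht]
  simp only [sum_const, card_range, nsmul_eq_mul, mul_one]
  omega

theorem rowsq (s : ℕ) :
    3 * ∑ t ∈ Icc (-(s : ℤ)) s, rowSum s (fun _ => 1) t ^ 2
      = 3 + 13 * (s : ℤ) + 21 * (s : ℤ) ^ 2 + 14 * (s : ℤ) ^ 3 := by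
  rw [sum_Icc_even (fun t => rowSum s (fun _ => 1) t ^ 2)
    (by intro t; rw [rowSum_neg _ (fun _ => rfl)])]
  have h0 : rowSum s (fun _ => 1) 0 = 2 * (s : ℤ) + 1 := by
    have := rowSum_one s 0 (Nat.zero_le _)
    push_cast at this
    rw [this]
    ring
  have h1 : ∑ k ∈ range s, rowSum s (fun _ => 1) ((k : ℤ) + 1) ^ 2
      = ∑ k ∈ range s, (2 * (s : ℤ) - (k : ℤ)) ^ 2 := by
    apply Finset.sum_congr rfl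
    intro k hk
    rw [mem_range] at hk
    have := rowSum_one s (k + 1) (by omega)
    push_cast at this
    rw [this]
    ring
  have h2 := tri_sq (s : ℤ) s
  rw [h0, h1]
  linarith

end Pool.Agent.H28.Honey
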