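import Mathlib

set_option autoImplicit false

namespace Pool.Agent.H28.Honey

/-- The hexagon of radius `r` in axial coordinates: the cells `(a, b)` of the hexagonal grid with
`|a|, |b|, |a + b| ≤ r`. -/
noncomputable def hexagon (r : ℕ) : Finset (ℤ × ℤ) :=
  (Finset.Icc (-(r : ℤ)) r ×ˢ Finset.Icc (-(r : ℤ)) r).filter fun x => |x.1 + x.2| ≤ r

/-- `D` is a honeycomb array of radius `r`: a set of `2r + 1` cells of the hexagon of radius `r`,
exactly one on each of the lines `a = c`, `b = c`, `a + b = c` for `-r ≤ c ≤ r`, whose difference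
vectors (over ordered pairs of distinct dots) are pairwise distinct. -/
structure IsHoneycombArray (r : ℕ) (D : Finset (ℤ × ℤ)) : Prop where
  /-- all dots are cells of the hexagon -/
  subset : D ⊆ hexagon r
  /-- there are `2r + 1` dots -/
  card : D.card = 2 * r + 1
  /-- one dot on each line `a = c` -/
  line_fst : ∀ c : ℤ, -(r : ℤ) ≤ c → c ≤ r → ∃! x, x ∈ D ∧ x.1 = c
  /-- one dot on each line `b = c` -/
  line_snd : ∀ c : ℤ, -(r : ℤ) ≤ c → c ≤ r → ∃! x, x ∈ D ∧ x.2 = c
  /-- one dot on each line `a + b = c` -/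
  line_sum : ∀ c : ℤ, -(r : ℤ) ≤ c → c ≤ r → ∃! x, x ∈ D ∧ x.1 + x.2 = c
  /-- the difference vectors of ordered pairs of distinct dots are pairwise distinct -/
  diff : ∀ x ∈ D, ∀ y ∈ D, ∀ z ∈ D, ∀ w ∈ D, x ≠ y → z ≠ w → x - y = z - w → x = z ∧ y = w

end Pool.Agent.H28.Honey
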