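import Pool.Agent.H28.Honey.Defs

set_option autoImplicit false

namespace Pool.Agent.H28.Honey

open Finset

lemma mem_hexagon {r : ℕ} {x : ℤ × ℤ} :
    x ∈ hexagon r ↔ |x.1| ≤ r ∧ |x.2| ≤ r ∧ |x.1 + x.2| ≤ r := by
  simp only [hexagon, mem_filter, mem_product, mem_Icc, abs_le]
  tauto

lemma add_mem_hexagon {r s : ℕ} {x y : ℤ × ℤ} (hx : x ∈ hexagon r) (hy : y ∈ hexagon s) :
    x + y ∈ hexagon (r + s) := by
  rw [mem_hexagon] at *
  simp only [Prod.fst_add, Prod.snd_add, abs_le] at *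
  push_cast
  omega

/-- `w` and `w'` differ in all three directions. -/
def OffAxis (p : (ℤ × ℤ) × (ℤ × ℤ)) : Prop :=
  p.1.1 ≠ p.2.1 ∧ p.1.2 ≠ p.2.2 ∧ p.1.1 + p.1.2 ≠ p.2.1 + p.2.2

instance : DecidablePred OffAxis := fun p => by unfold OffAxis; infer_instance

variable {r s : ℕ} {D : Finset (ℤ × ℤ)}

lemma IsHoneycombArray.eq_of_fst (h : IsHoneycombArray r D) {x y : ℤ × ℤ} (hx : x ∈ D) (hy : y ∈ D)
    (hxy : x.1 = y.1) : x = y := by
  have hx' := mem_hexagon.mp (h.subset hx)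
  rw [abs_le] at hx'
  exact (h.line_fst x.1 hx'.1.1 hx'.1.2).unique ⟨hx, rfl⟩ ⟨hy, hxy.symm⟩

lemma IsHoneycombArray.eq_of_snd (h : IsHoneycombArray r D) {x y : ℤ × ℤ} (hx : x ∈ D) (hy : y ∈ D)
    (hxy : x.2 = y.2) : x = y := by
  have hx' := (mem_hexagon.mp (h.subset hx)).2.1
  rw [abs_le] at hx'
  exact (h.line_snd x.2 hx'.1 hx'.2).unique ⟨hx, rfl⟩ ⟨hy, hxy.symm⟩

lemma IsHoneycombArray.eq_of_sum (h : IsHoneycombArray r D) {x y : ℤ × ℤ} (hx : x ∈ D) (hy : y ∈ D)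
    (hxy : x.1 + x.2 = y.1 + y.2) : x = y := by
  have hx' := (mem_hexagon.mp (h.subset hx)).2.2
  rw [abs_le] at hx'
  exact (h.line_sum (x.1 + x.2) hx'.1 hx'.2).unique ⟨hx, rfl⟩ ⟨hy, hxy.symm⟩

/-- The window sum `F x`. -/
noncomputable def wsum (D : Finset (ℤ × ℤ)) (s : ℕ) (φ : ℤ × ℤ → ℤ) (x : ℤ × ℤ) : ℤ :=
  ∑ p ∈ (D ×ˢ hexagon s).filter (fun p => p.1 + p.2 = x), φ p.2

lemma wsum_nonneg (φ : ℤ × ℤ → ℤ) (hφ : ∀ w, 0 ≤ φ w) (x : ℤ × ℤ) : 0 ≤ wsum D s φ x :=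
  Finset.sum_nonneg fun p _ => hφ p.2

lemma sum_wsum_mul (h : IsHoneycombArray r D) (φ ψ : ℤ × ℤ → ℤ) :
    ∑ x ∈ hexagon (r + s), wsum D s φ x * ψ x
      = ∑ d ∈ D, ∑ w ∈ hexagon s, φ w * ψ (d + w) := by
  rw [← Finset.sum_product']
  rw [← Finset.sum_fiberwise_of_maps_to (s := D ×ˢ hexagon s) (t := hexagon (r + s))
    (g := fun p => p.1 + p.2)]
  · apply Finset.sum_congr rfl
    intro x _
    rw [wsum, Finset.sum_mul]
    apply Finset.sum_congr rfl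
    intro p hp
    rw [(Finset.mem_filter.mp hp).2]
  · intro p hp
    rw [Finset.mem_product] at hp
    exact add_mem_hexagon (h.subset hp.1) hp.2

lemma sum_wsum_sq (h : IsHoneycombArray r D) (φ : ℤ × ℤ → ℤ) (hφ : ∀ w, 0 ≤ φ w) :
    ∑ x ∈ hexagon (r + s), wsum D s φ x ^ 2
      ≤ (2 * r + 1) * ∑ w ∈ hexagon s, φ w ^ 2
        + ∑ p ∈ (hexagon s ×ˢ hexagon s).filter OffAxis, φ p.1 * φ p.2 := by
  classical
  -- the sum of squares as a sum over coincidences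
  set P := D ×ˢ hexagon s with hP
  have h1 : ∑ x ∈ hexagon (r + s), wsum D s φ x ^ 2
      = ∑ q ∈ (P ×ˢ P).filter (fun q => q.1.1 + q.1.2 = q.2.1 + q.2.2), φ q.1.2 * φ q.2.2 := by
    have h2 : ∀ x, wsum D s φ x ^ 2
        = ∑ q ∈ (P.filter (fun p => p.1 + p.2 = x)) ×ˢ (P.filter (fun p => p.1 + p.2 = x)),
          φ q.1.2 * φ q.2.2 := by
      intro x
      rw [sq, wsum, Finset.sum_mul_sum, ← Finset.sum_product']
    simp_rw [h2]
    rw [← Finset.sum_fiberwise_of_maps_to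
      (s := (P ×ˢ P).filter (fun q => q.1.1 + q.1.2 = q.2.1 + q.2.2)) (t := hexagon (r + s))
      (g := fun q => q.1.1 + q.1.2)]
    · apply Finset.sum_congr rfl
      intro x _
      apply Finset.sum_congr _ (fun _ _ => rfl)
      ext q
      simp only [mem_product, mem_filter]
      constructor
      · rintro ⟨⟨h3, h4⟩, ⟨h5, h6⟩⟩
        exact ⟨⟨⟨h3, h5⟩, by rw [h4, h6]⟩, h4⟩
      · rintro ⟨⟨⟨h3, h5⟩, h6⟩, h4⟩
        exact ⟨⟨h3, h4⟩, ⟨h5, by rw [← h6, h4]⟩⟩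
    · intro q hq
      simp only [mem_filter, mem_product, hP] at hq
      exact add_mem_hexagon (h.subset hq.1.1.1) hq.1.1.2
  rw [h1]
  rw [← Finset.sum_filter_add_sum_filter_not _ (fun q => q.1.1 = q.2.1)]
  apply add_le_add
  · -- the diagonal part
    rw [Finset.filter_filter]
    have h3 : ∑ q ∈ (P ×ˢ P).filter (fun q => q.1.1 + q.1.2 = q.2.1 + q.2.2 ∧ q.1.1 = q.2.1),
        φ q.1.2 * φ q.2.2 = ∑ p ∈ P, φ p.2 ^ 2 := by
      symm
      apply Finset.sum_nbij (fun p => (p, p))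
      · intro p hp
        simp [hp]
      · intro p _ q _ hpq
        exact (Prod.mk.inj hpq).1
      · intro q hq
        simp only [coe_filter, mem_product, Set.mem_ofPred_eq] at hq
        obtain ⟨⟨h4, h5⟩, h6, h7⟩ := hq
        refine ⟨q.1, h4, ?_⟩
        have h8 : q.1.2 = q.2.2 := by
          rw [h7] at h6
          exact add_left_cancel h6
        have h9 : q.1 = q.2 := Prod.ext h7 h8
        exact Prod.ext rfl h9
      · intro p _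
        exact sq _
    rw [h3, hP, Finset.sum_product]
    simp only [Finset.sum_const, h.card]
    rw [nsmul_eq_mul]
    push_cast
    exact le_refl _
  · -- the off-diagonal part
    rw [Finset.filter_filter]
    set Q := (P ×ˢ P).filter (fun q => q.1.1 + q.1.2 = q.2.1 + q.2.2 ∧ ¬ q.1.1 = q.2.1) with hQ
    have hinj : Set.InjOn (fun q : ((ℤ × ℤ) × (ℤ × ℤ)) × ((ℤ × ℤ) × (ℤ × ℤ)) => (q.1.2, q.2.2))
        (Q : Set _) := by
      intro q hq q' hq' hqq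
      simp only [hQ, hP, coe_filter, mem_product, Set.mem_ofPred_eq] at hq hq'
      obtain ⟨⟨⟨a1, a2⟩, ⟨a3, a4⟩⟩, a5, a6⟩ := hq
      obtain ⟨⟨⟨b1, b2⟩, ⟨b3, b4⟩⟩, b5, b6⟩ := hq'
      obtain ⟨e1, e2⟩ := Prod.mk.inj hqq
      have h4 : q.1.1 - q.2.1 = q'.1.1 - q'.2.1 := by
        have h5 : q.1.1 - q.2.1 = q.2.2 - q.1.2 := by
          rw [sub_eq_sub_iff_add_eq_add, a5, add_comm]
        have h6 : q'.1.1 - q'.2.1 = q'.2.2 - q'.1.2 := by
          rw [sub_eq_sub_iff_add_eq_add, b5, add_comm]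
        rw [h5, h6, e1, e2]
      obtain ⟨e3, e4⟩ := h.diff _ a1 _ a3 _ b1 _ b3 a6 b6 h4
      exact Prod.ext (Prod.ext e3 e1) (Prod.ext e4 e2)
    rw [← Finset.sum_image (f := fun p : (ℤ × ℤ) × (ℤ × ℤ) => φ p.1 * φ p.2) hinj]
    apply Finset.sum_le_sum_of_subset_of_nonneg
    · intro p hp
      rw [Finset.mem_image] at hp
      obtain ⟨q, hq, rfl⟩ := hp
      simp only [hQ, hP, mem_filter, mem_product] at hq
      obtain ⟨⟨⟨a1, a2⟩, ⟨a3, a4⟩⟩, a5, a6⟩ := hq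
      have c1 : q.1.1.1 + q.1.2.1 = q.2.1.1 + q.2.2.1 := congrArg Prod.fst a5
      have c2 : q.1.1.2 + q.1.2.2 = q.2.1.2 + q.2.2.2 := congrArg Prod.snd a5
      simp only [mem_filter, mem_product, OffAxis]
      refine ⟨⟨a2, a4⟩, ?_, ?_, ?_⟩
      · intro h5
        exact a6 (h.eq_of_fst a1 a3 (by omega))
      · intro h5
        exact a6 (h.eq_of_snd a1 a3 (by omega))
      · intro h5
        exact a6 (h.eq_of_sum a1 a3 (by omega))
    · intro p _ _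
      exact mul_nonneg (hφ _) (hφ _)

/-- The energy inequality. -/
theorem energy (h : IsHoneycombArray r D) (φ ψ : ℤ × ℤ → ℤ) (hφ : ∀ w, 0 ≤ φ w)
    (h0 : 0 ≤ ∑ d ∈ D, ∑ w ∈ hexagon s, φ w * ψ (d + w)) :
    (∑ d ∈ D, ∑ w ∈ hexagon s, φ w * ψ (d + w)) ^ 2
      ≤ (∑ x ∈ hexagon (r + s), (max (ψ x) 0) ^ 2)
        * ((2 * r + 1) * ∑ w ∈ hexagon s, φ w ^ 2
          + ∑ p ∈ (hexagon s ×ˢ hexagon s).filter OffAxis, φ p.1 * φ p.2) := by
  rw [← sum_wsum_mul h] at *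
  have h1 : ∑ x ∈ hexagon (r + s), wsum D s φ x * ψ x
      ≤ ∑ x ∈ hexagon (r + s), wsum D s φ x * max (ψ x) 0 :=
    Finset.sum_le_sum fun x _ => mul_le_mul_of_nonneg_left (le_max_left _ _) (wsum_nonneg φ hφ x)
  have h2 : (∑ x ∈ hexagon (r + s), wsum D s φ x * max (ψ x) 0) ^ 2
      ≤ (∑ x ∈ hexagon (r + s), wsum D s φ x ^ 2) * ∑ x ∈ hexagon (r + s), max (ψ x) 0 ^ 2 :=
    Finset.sum_mul_sq_le_sq_mul_sq _ _ _
  have h3 := sum_wsum_sq (s := s) h φ hφ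
  have h4 : 0 ≤ ∑ x ∈ hexagon (r + s), max (ψ x) 0 ^ 2 :=
    Finset.sum_nonneg fun x _ => sq_nonneg _
  calc _ ≤ (∑ x ∈ hexagon (r + s), wsum D s φ x * max (ψ x) 0) ^ 2 :=
        pow_le_pow_left₀ h0 h1 2
    _ ≤ _ := h2
    _ ≤ _ := by
        rw [mul_comm]
        exact mul_le_mul_of_nonneg_left h3 h4

end Pool.Agent.H28.Honey
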