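import Mathlib

set_option autoImplicit false

namespace Pool.Agent.H28.Honey

/-- `∑ i < n, f i`, in a form the kernel can evaluate. -/
def sumTo (f : ℕ → ℕ) (n : ℕ) : ℕ := Nat.rec 0 (fun k ih => ih + f k) n

/-- `|i - n|`. -/
def absd (i n : ℕ) : ℕ := (i - n) + (n - i)

def phiN (s C t j : ℕ) : ℕ := (C + 2 * j * s + t * s) - (t ^ 2 + j ^ 2 + s ^ 2 + t * j)

def rowN (s C t : ℕ) : ℕ := sumTo (fun j => phiN s C t j) (2 * s + 1 - t)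

def row2N (s C t : ℕ) : ℕ := sumTo (fun j => phiN s C t j ^ 2) (2 * s + 1 - t)

def W1 (s C : ℕ) : ℕ := rowN s C 0 + 2 * sumTo (fun k => rowN s C (k + 1)) s

def W2 (s C : ℕ) : ℕ := row2N s C 0 + 2 * sumTo (fun k => row2N s C (k + 1)) s

def L (s C : ℕ) : ℕ := rowN s C 0 ^ 2 + 2 * sumTo (fun k => rowN s C (k + 1) ^ 2) s

def Ppos (R k : ℕ) : ℕ := 10 * R ^ 8 + 59 * R ^ 6 * k ^ 2 + 266 * R ^ 4 * k ^ 4 + 571 * k ^ 8

def Pneg (R k : ℕ) : ℕ := 960 * R ^ 2 * k ^ 6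

def Qpos (R r t : ℕ) : ℕ := sumTo (fun i => Ppos R (absd (i + t) r)) (2 * r + 1)

def Qneg (R r t : ℕ) : ℕ := sumTo (fun i => Pneg R (absd (i + t) r)) (2 * r + 1)

def Gpos (R r s C : ℕ) : ℕ :=
  rowN s C 0 * Qpos R r 0 + 2 * sumTo (fun k => rowN s C (k + 1) * Qpos R r (k + 1)) s

def Gneg (R r s C : ℕ) : ℕ :=
  rowN s C 0 * Qneg R r 0 + 2 * sumTo (fun k => rowN s C (k + 1) * Qneg R r (k + 1)) s

def cell (R k i : ℕ) : ℕ :=
  ((Ppos R k + Ppos R i + Ppos R (k - i)) - (Pneg R k + Pneg R i + Pneg R (k - i))) ^ 2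

def denN (R : ℕ) : ℕ :=
  (3 * Ppos R 0) ^ 2 + 6 * sumTo (fun k => sumTo (fun i => cell R k i) k) (R + 1)

/-- The certificate check. -/
def check (r s C : ℕ) : Bool :=
  Nat.ble (Gneg (r + s) r s C) (Gpos (r + s) r s C) && Nat.blt (denN (r + s) * ((2 * r + 3) * W2 s C + W1 s C ^ 2))
    (9 * (Gpos (r + s) r s C - Gneg (r + s) r s C) ^ 2 + denN (r + s) * (3 * L s C))

end Pool.Agent.H28.Honey
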