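import Pool.Agent.H28.Honey.Closed

set_option autoImplicit false

namespace Pool.Agent.H28.Honey

open Finset

variable {r s : ℕ} {D : Finset (ℤ × ℤ)}

theorem sum_Icc_succ (f : ℤ → ℤ) (n : ℕ) :
    ∑ t ∈ Icc (-((n + 1 : ℕ) : ℤ)) ((n + 1 : ℕ) : ℤ), f t
      = f ((n : ℤ) + 1) + (f (-((n : ℤ) + 1)) + ∑ t ∈ Icc (-(n : ℤ)) n, f t) := by
  have h1 : Icc (-((n + 1 : ℕ) : ℤ)) ((n + 1 : ℕ) : ℤ)
      = insert ((n : ℤ) + 1) (insert (-((n : ℤ) + 1)) (Icc (-(n : ℤ)) n)) := by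
    ext x
    simp only [mem_Icc, mem_insert]
    push_cast
    omega
  rw [h1, Finset.sum_insert, Finset.sum_insert]
  · simp
  · simp only [mem_insert, mem_Icc]
    omega

theorem Qclosed (R t : ℤ) (r : ℕ) :
    15 * ∑ c ∈ Icc (-(r : ℤ)) r, (R ^ 4 + 13 * R ^ 2 * (c + t) ^ 2 - 18 * (c + t) ^ 4)
      = (15 * (2 * (r : ℤ) + 1) * R ^ 4 + 65 * R ^ 2 * (2 * (r : ℤ) ^ 3 + 3 * (r : ℤ) ^ 2 + r)
          - 18 * (6 * (r : ℤ) ^ 5 + 15 * (r : ℤ) ^ 4 + 10 * (r : ℤ) ^ 3 - r))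
        + (195 * R ^ 2 * (2 * (r : ℤ) + 1) - 540 * (2 * (r : ℤ) ^ 3 + 3 * (r : ℤ) ^ 2 + r)) * t ^ 2
        + (-270 * (2 * (r : ℤ) + 1)) * t ^ 4 := by
  induction r with
  | zero => simp; ring
  | succ r ih =>
    rw [sum_Icc_succ, mul_add, mul_add, ih]
    push_cast
    ring

theorem hex_sq (s : ℕ) :
    6 * ∑ w ∈ hexagon s, w.1 ^ 2 = 2 * ∑ x ∈ hexagon s, (x.1 ^ 2 + x.2 ^ 2 + (x.1 + x.2) ^ 2) ^ 1 := by
  have h1 : ∑ w ∈ hexagon s, w.2 ^ 2 = ∑ w ∈ hexagon s, w.1 ^ 2 := hex_swap (fun w => w.1 ^ 2)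
  have h2 : ∑ w ∈ hexagon s, (w.1 + w.2) ^ 2 = ∑ w ∈ hexagon s, w.1 ^ 2 :=
    hex_shear (fun w => w.1 ^ 2)
  simp only [pow_one]
  rw [sum_add_distrib, sum_add_distrib, h1, h2]
  ring

theorem hex_four (s : ℕ) :
    6 * ∑ w ∈ hexagon s, w.1 ^ 4 = ∑ x ∈ hexagon s, (x.1 ^ 2 + x.2 ^ 2 + (x.1 + x.2) ^ 2) ^ 2 := by
  have h1 : ∑ w ∈ hexagon s, w.2 ^ 4 = ∑ w ∈ hexagon s, w.1 ^ 4 := hex_swap (fun w => w.1 ^ 4)
  have h2 : ∑ w ∈ hexagon s, (w.1 + w.2) ^ 4 = ∑ w ∈ hexagon s, w.1 ^ 4 :=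
    hex_shear (fun w => w.1 ^ 4)
  have h3 : ∀ x : ℤ × ℤ, (x.1 ^ 2 + x.2 ^ 2 + (x.1 + x.2) ^ 2) ^ 2
      = 2 * x.1 ^ 4 + 2 * x.2 ^ 4 + 2 * (x.1 + x.2) ^ 4 := by
    intro x
    ring
  simp only [h3]
  rw [sum_add_distrib, sum_add_distrib, ← mul_sum, ← mul_sum, ← mul_sum, h1, h2]
  ring

/-- The closed form of the linear statistic. -/
theorem Tclosed (r s : ℕ) (R : ℤ) :
    900 * ∑ t ∈ Icc (-(s : ℤ)) s, rowSum s (fun _ => 1) t *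
        ∑ c ∈ Icc (-(r : ℤ)) r, (R ^ 4 + 13 * R ^ 2 * (c + t) ^ 2 - 18 * (c + t) ^ 4)
      = 60 * (15 * (2 * (r : ℤ) + 1) * R ^ 4 + 65 * R ^ 2 * (2 * (r : ℤ) ^ 3 + 3 * (r : ℤ) ^ 2 + r)
          - 18 * (6 * (r : ℤ) ^ 5 + 15 * (r : ℤ) ^ 4 + 10 * (r : ℤ) ^ 3 - r))
            * (1 + 3 * (s : ℤ) + 3 * (s : ℤ) ^ 2)
        + 10 * (195 * R ^ 2 * (2 * (r : ℤ) + 1) - 540 * (2 * (r : ℤ) ^ 3 + 3 * (r : ℤ) ^ 2 + r))
            * (2 * (s : ℤ) + 7 * (s : ℤ) ^ 2 + 10 * (s : ℤ) ^ 3 + 5 * (s : ℤ) ^ 4)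
        + 2 * (-270 * (2 * (r : ℤ) + 1))
            * (-2 * (s : ℤ) + (s : ℤ) ^ 2 + 20 * (s : ℤ) ^ 3 + 45 * (s : ℤ) ^ 4
              + 42 * (s : ℤ) ^ 5 + 14 * (s : ℤ) ^ 6) := by
  set A0 := 15 * (2 * (r : ℤ) + 1) * R ^ 4 + 65 * R ^ 2 * (2 * (r : ℤ) ^ 3 + 3 * (r : ℤ) ^ 2 + r)
          - 18 * (6 * (r : ℤ) ^ 5 + 15 * (r : ℤ) ^ 4 + 10 * (r : ℤ) ^ 3 - r) with hA0
  set A2 := 195 * R ^ 2 * (2 * (r : ℤ) + 1) - 540 * (2 * (r : ℤ) ^ 3 + 3 * (r : ℤ) ^ 2 + r) with hA2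
  set A4 := -270 * (2 * (r : ℤ) + 1) with hA4
  rw [← sum_hex_eq_rows (fun _ => 1)
    (fun t => ∑ c ∈ Icc (-(r : ℤ)) r, (R ^ 4 + 13 * R ^ 2 * (c + t) ^ 2 - 18 * (c + t) ^ 4))]
  simp only [one_mul]
  have h1 : 15 * ∑ w ∈ hexagon s, ∑ c ∈ Icc (-(r : ℤ)) r,
      (R ^ 4 + 13 * R ^ 2 * (c + w.1) ^ 2 - 18 * (c + w.1) ^ 4)
      = ∑ w ∈ hexagon s, (A0 + A2 * w.1 ^ 2 + A4 * w.1 ^ 4) := by
    rw [mul_sum]
    apply sum_congr rfl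
    intro w _
    exact Qclosed R w.1 r
  rw [sum_add_distrib, sum_add_distrib, ← mul_sum, ← mul_sum] at h1
  have m0 := hexmom0 s
  have m1 := hexmom1 s
  have m2 := hexmom2 s
  have k1 := hex_sq s
  have k2 := hex_four s
  simp only [pow_zero] at m0
  have h0 : ∑ w ∈ hexagon s, A0 = A0 * ∑ w ∈ hexagon s, (1 : ℤ) := by
    rw [mul_sum]; simp
  rw [h0] at h1
  linear_combination 60 * h1 + 60 * A0 * m0 + 10 * A2 * (k1 + m1) + 2 * A4 * (5 * k2 + m2)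

theorem Dclosed (N : ℕ) :
    1050 * ∑ x ∈ hexagon N, (3 * (N : ℤ) ^ 4 + 13 * (N : ℤ) ^ 2 * (x.1 ^ 2 + x.2 ^ 2 + (x.1 + x.2) ^ 2)
        - 9 * (x.1 ^ 2 + x.2 ^ 2 + (x.1 + x.2) ^ 2) ^ 2) ^ 2
      = 9450 * (N : ℤ) ^ 8 * (1 + 3 * (N : ℤ) + 3 * (N : ℤ) ^ 2)
        + 40950 * (N : ℤ) ^ 6 * (2 * (N : ℤ) + 7 * (N : ℤ) ^ 2 + 10 * (N : ℤ) ^ 3 + 5 * (N : ℤ) ^ 4)
        + 24150 * (N : ℤ) ^ 4 * (-2 * (N : ℤ) + (N : ℤ) ^ 2 + 20 * (N : ℤ) ^ 3 + 45 * (N : ℤ) ^ 4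
              + 42 * (N : ℤ) ^ 5 + 14 * (N : ℤ) ^ 6)
        - 3510 * (N : ℤ) ^ 2 * (40 * (N : ℤ) - 32 * (N : ℤ) ^ 2 - 196 * (N : ℤ) ^ 3
              + 21 * (N : ℤ) ^ 4 + 840 * (N : ℤ) ^ 5 + 1442 * (N : ℤ) ^ 6 + 996 * (N : ℤ) ^ 7
              + 249 * (N : ℤ) ^ 8)
        + 162 * (-840 * (N : ℤ) + 852 * (N : ℤ) ^ 2 + 3200 * (N : ℤ) ^ 3 - 1040 * (N : ℤ) ^ 4
              - 6720 * (N : ℤ) ^ 5 - 504 * (N : ℤ) ^ 6 + 16800 * (N : ℤ) ^ 7 + 23340 * (N : ℤ) ^ 8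
              + 12760 * (N : ℤ) ^ 9 + 2552 * (N : ℤ) ^ 10) := by
  have h1 : ∀ q : ℤ, (3 * (N : ℤ) ^ 4 + 13 * (N : ℤ) ^ 2 * q - 9 * q ^ 2) ^ 2
      = 9 * (N : ℤ) ^ 8 * q ^ 0 + 78 * (N : ℤ) ^ 6 * q ^ 1 + 115 * (N : ℤ) ^ 4 * q ^ 2
        + (-234 * (N : ℤ) ^ 2) * q ^ 3 + 81 * q ^ 4 := by
    intro q
    ring
  simp only [h1]
  rw [sum_add_distrib, sum_add_distrib, sum_add_distrib, sum_add_distrib,
    ← mul_sum, ← mul_sum, ← mul_sum, ← mul_sum, ← mul_sum]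
  have m0 := hexmom0 N
  have m1 := hexmom1 N
  have m2 := hexmom2 N
  have m3 := hexmom3 N
  have m4 := hexmom4 N
  linear_combination 9450 * (N : ℤ) ^ 8 * m0 + 40950 * (N : ℤ) ^ 6 * m1
    + 24150 * (N : ℤ) ^ 4 * m2 - 3510 * (N : ℤ) ^ 2 * m3 + 162 * m4

theorem large0 (x : ℕ) {r s : ℕ} (hs : s = x + 15) (hr : r = 5 * s + 0)
    (h : IsHoneycombArray r D) : False := by
  have hsz : (s : ℤ) = x + 15 := by rw [hs]; push_cast; ring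
  have hrz : (r : ℤ) = 5 * (x + 15) + 0 := by rw [hr, hs]; push_cast; ring
  set R : ℤ := ((r + s : ℕ) : ℤ) with hR
  have hRz : R = 6 * (x + 15) + 0 := by rw [hR]; push_cast; rw [hsz, hrz]; ring
  have hx : (0 : ℤ) ≤ x := Int.natCast_nonneg x
  have h1 := main_ineq (s := s) h (fun _ => 1) (by intro w; norm_num) (by intro w; rfl)
    (by intro w; rfl) (fun k => R ^ 4 + 13 * R ^ 2 * k ^ 2 - 18 * k ^ 4)
  simp only at h1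
  set T : ℤ := ∑ t ∈ Icc (-(s : ℤ)) s, rowSum s (fun _ => 1) t *
        ∑ c ∈ Icc (-(r : ℤ)) r, (R ^ 4 + 13 * R ^ 2 * (c + t) ^ 2 - 18 * (c + t) ^ 4) with hTdef
  have hT : 900 * T = 13903895113063200 + 6428792098475280 * (x : ℤ) ^ 1 + 1273887719900460 * (x : ℤ) ^ 2 + 140231714243400 * (x : ℤ) ^ 3 + 9261868009500 * (x : ℤ) ^ 4 + 367018845120 * (x : ℤ) ^ 5 + 8079639840 * (x : ℤ) ^ 6 + 76226400 * (x : ℤ) ^ 7 := by
    rw [hTdef, Tclosed, hRz, hrz, hsz]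
    ring
  have hT0 : 0 ≤ T := by
    have : 0 ≤ 900 * T := by rw [hT]; positivity
    linarith
  have h2 := h1 hT0
  have hU : (2 * (r : ℤ) + 3) * ∑ w ∈ hexagon s, (1 : ℤ) ^ 2 + (∑ w ∈ hexagon s, (1 : ℤ)) ^ 2
      - 3 * ∑ t ∈ Icc (-(s : ℤ)) s, rowSum s (fun _ => 1) t ^ 2
      = 577981 + 145452 * (x : ℤ) ^ 1 + 13713 * (x : ℤ) ^ 2 + 574 * (x : ℤ) ^ 3 + 9 * (x : ℤ) ^ 4 := by
    have m0 := hexmom0 s
    simp only [pow_zero, one_mul] at m0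
    rw [rowsq]
    simp only [one_pow]
    rw [m0, hrz, hsz]
    ring
  rw [hU] at h2
  have hD : 1050 * ∑ x ∈ hexagon (r + s), (3 * R ^ 4
        + 13 * R ^ 2 * (x.1 ^ 2 + x.2 ^ 2 + (x.1 + x.2) ^ 2)
        - 9 * (x.1 ^ 2 + x.2 ^ 2 + (x.1 + x.2) ^ 2) ^ 2) ^ 2
      = 3867057196572189280147200 + 2577374028585874460089440 * (x : ℤ) ^ 1 + 773015152684439715192864 * (x : ℤ) ^ 2 + 137390265812905734326400 * (x : ℤ) ^ 3 + 16024865828601265568640 * (x : ℤ) ^ 4 + 1281672861607818691200 * (x : ℤ) ^ 5 + 71186660515977495552 * (x : ℤ) ^ 6 + 2711217576609676800 * (x : ℤ) ^ 7 + 67764236195381760 * (x : ℤ) ^ 8 + 1003677148431360 * (x : ℤ) ^ 9 + 6689614915584 * (x : ℤ) ^ 10 := by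
    rw [hR, Dclosed, ← hR, hRz]
    ring
  have hle : ∑ x ∈ hexagon (r + s), (max (R ^ 4 + 13 * R ^ 2 * x.1 ^ 2 - 18 * x.1 ^ 4
        + (R ^ 4 + 13 * R ^ 2 * x.2 ^ 2 - 18 * x.2 ^ 4)
        + (R ^ 4 + 13 * R ^ 2 * (x.1 + x.2) ^ 2 - 18 * (x.1 + x.2) ^ 4)) 0) ^ 2
      ≤ ∑ x ∈ hexagon (r + s), (3 * R ^ 4
        + 13 * R ^ 2 * (x.1 ^ 2 + x.2 ^ 2 + (x.1 + x.2) ^ 2)
        - 9 * (x.1 ^ 2 + x.2 ^ 2 + (x.1 + x.2) ^ 2) ^ 2) ^ 2 := by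
    apply sum_le_sum
    intro y _
    have e : R ^ 4 + 13 * R ^ 2 * y.1 ^ 2 - 18 * y.1 ^ 4
        + (R ^ 4 + 13 * R ^ 2 * y.2 ^ 2 - 18 * y.2 ^ 4)
        + (R ^ 4 + 13 * R ^ 2 * (y.1 + y.2) ^ 2 - 18 * (y.1 + y.2) ^ 4)
        = 3 * R ^ 4 + 13 * R ^ 2 * (y.1 ^ 2 + y.2 ^ 2 + (y.1 + y.2) ^ 2)
        - 9 * (y.1 ^ 2 + y.2 ^ 2 + (y.1 + y.2) ^ 2) ^ 2 := by ring
    rw [e]
    rcases le_total 0 (3 * R ^ 4 + 13 * R ^ 2 * (y.1 ^ 2 + y.2 ^ 2 + (y.1 + y.2) ^ 2)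
        - 9 * (y.1 ^ 2 + y.2 ^ 2 + (y.1 + y.2) ^ 2) ^ 2) with h3 | h3
    · rw [max_eq_left h3]
    · rw [max_eq_right h3]
      positivity
  set U : ℤ := 577981 + 145452 * (x : ℤ) ^ 1 + 13713 * (x : ℤ) ^ 2 + 574 * (x : ℤ) ^ 3 + 9 * (x : ℤ) ^ 4 with hUdef
  have hU0 : 0 ≤ U := by rw [hUdef]; positivity
  have h3 := h2.trans (mul_le_mul_of_nonneg_right hle hU0)
  set E : ℤ := ∑ x ∈ hexagon (r + s), (3 * R ^ 4
        + 13 * R ^ 2 * (x.1 ^ 2 + x.2 ^ 2 + (x.1 + x.2) ^ 2)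
        - 9 * (x.1 ^ 2 + x.2 ^ 2 + (x.1 + x.2) ^ 2) ^ 2) ^ 2 with hE
  have h4 : 9450 * (900 * T) ^ 2 ≤ 810000 * (1050 * E) * U := by
    have h5 := mul_le_mul_of_nonneg_left h3 (show (0 : ℤ) ≤ 850500000 by norm_num)
    calc 9450 * (900 * T) ^ 2 = 850500000 * (3 * T) ^ 2 := by ring
      _ ≤ 850500000 * (E * U) := h5
      _ = 810000 * (1050 * E) * U := by ring
  rw [hT, hD, hUdef] at h4
  have h6 : 0 < 16438604246430515615369354976000000 + 27144263037569055065012872872000000 * (x : ℤ) ^ 1 + 16811350497860273474197058619840000 * (x : ℤ) ^ 2 + 5812152978978039835659087793440000 * (x : ℤ) ^ 3 + 1306102861176436283209344346500000 * (x : ℤ) ^ 4 + 205805289016642505518944674640000 * (x : ℤ) ^ 5 + 23705313743545332283903280760000 * (x : ℤ) ^ 6 + 2041098099554354874421428720000 * (x : ℤ) ^ 7 + 132591890616196420891721700000 * (x :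 ℤ) ^ 8 + 6486310945613716080736320000 * (x : ℤ) ^ 9 + 235727260689533154557760000 * (x : ℤ) ^ 10 + 6181463321132628075840000 * (x : ℤ) ^ 11 + 110701774940465260800000 * (x : ℤ) ^ 12 + 1213091150949527040000 * (x : ℤ) ^ 13 + 6141592603664640000 * (x : ℤ) ^ 14 := by positivity
  apply absurd h4
  rw [not_le, ← sub_pos]
  refine lt_of_lt_of_eq h6 ?_
  ring

theorem large1 (x : ℕ) {r s : ℕ} (hs : s = x + 15) (hr : r = 5 * s + 1)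
    (h : IsHoneycombArray r D) : False := by
  have hsz : (s : ℤ) = x + 15 := by rw [hs]; push_cast; ring
  have hrz : (r : ℤ) = 5 * (x + 15) + 1 := by rw [hr, hs]; push_cast; ring
  set R : ℤ := ((r + s : ℕ) : ℤ) with hR
  have hRz : R = 6 * (x + 15) + 1 := by rw [hR]; push_cast; rw [hsz, hrz]; ring
  have hx : (0 : ℤ) ≤ x := Int.natCast_nonneg x
  have h1 := main_ineq (s := s) h (fun _ => 1) (by intro w; norm_num) (by intro w; rfl)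
    (by intro w; rfl) (fun k => R ^ 4 + 13 * R ^ 2 * k ^ 2 - 18 * k ^ 4)
  simp only at h1
  set T : ℤ := ∑ t ∈ Icc (-(s : ℤ)) s, rowSum s (fun _ => 1) t *
        ∑ c ∈ Icc (-(r : ℤ)) r, (R ^ 4 + 13 * R ^ 2 * (c + t) ^ 2 - 18 * (c + t) ^ 4) with hTdef
  have hT : 900 * T = 14719585211385300 + 6750402934762140 * (x : ℤ) ^ 1 + 1326722027409930 * (x : ℤ) ^ 2 + 144860759906400 * (x : ℤ) ^ 3 + 9489997315950 * (x : ℤ) ^ 4 + 373014841260 * (x : ℤ) ^ 5 + 8145303120 * (x : ℤ) ^ 6 + 76226400 * (x : ℤ) ^ 7 := by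
    rw [hTdef, Tclosed, hRz, hrz, hsz]
    ring
  have hT0 : 0 ≤ T := by
    have : 0 ≤ 900 * T := by rw [hT]; positivity
    linarith
  have h2 := h1 hT0
  have hU : (2 * (r : ℤ) + 3) * ∑ w ∈ hexagon s, (1 : ℤ) ^ 2 + (∑ w ∈ hexagon s, (1 : ℤ)) ^ 2
      - 3 * ∑ t ∈ Icc (-(s : ℤ)) s, rowSum s (fun _ => 1) t ^ 2
      = 579423 + 145638 * (x : ℤ) ^ 1 + 13719 * (x : ℤ) ^ 2 + 574 * (x : ℤ) ^ 3 + 9 * (x : ℤ) ^ 4 := by
    have m0 := hexmom0 s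
    simp only [pow_zero, one_mul] at m0
    rw [rowsq]
    simp only [one_pow]
    rw [m0, hrz, hsz]
    ring
  rw [hU] at h2
  have hD : 1050 * ∑ x ∈ hexagon (r + s), (3 * R ^ 4
        + 13 * R ^ 2 * (x.1 ^ 2 + x.2 ^ 2 + (x.1 + x.2) ^ 2)
        - 9 * (x.1 ^ 2 + x.2 ^ 2 + (x.1 + x.2) ^ 2) ^ 2) ^ 2
      = 4318740775070684601379650 + 2846796691801942918635660 * (x : ℤ) ^ 1 + 844441264551322080137304 * (x : ℤ) ^ 2 + 148436195004865025304480 * (x : ℤ) ^ 3 + 17123030649217729005120 * (x : ℤ) ^ 4 + 1354458732012347955840 * (x : ℤ) ^ 5 + 74402844608586074112 * (x : ℤ) ^ 6 + 2802577285138014720 * (x : ℤ) ^ 7 + 69278113936673280 * (x : ℤ) ^ 8 + 1014826506624000 * (x : ℤ) ^ 9 + 6689614915584 * (x : ℤ) ^ 10 := by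
    rw [hR, Dclosed, ← hR, hRz]
    ring
  have hle : ∑ x ∈ hexagon (r + s), (max (R ^ 4 + 13 * R ^ 2 * x.1 ^ 2 - 18 * x.1 ^ 4
        + (R ^ 4 + 13 * R ^ 2 * x.2 ^ 2 - 18 * x.2 ^ 4)
        + (R ^ 4 + 13 * R ^ 2 * (x.1 + x.2) ^ 2 - 18 * (x.1 + x.2) ^ 4)) 0) ^ 2
      ≤ ∑ x ∈ hexagon (r + s), (3 * R ^ 4
        + 13 * R ^ 2 * (x.1 ^ 2 + x.2 ^ 2 + (x.1 + x.2) ^ 2)
        - 9 * (x.1 ^ 2 + x.2 ^ 2 + (x.1 + x.2) ^ 2) ^ 2) ^ 2 := by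
    apply sum_le_sum
    intro y _
    have e : R ^ 4 + 13 * R ^ 2 * y.1 ^ 2 - 18 * y.1 ^ 4
        + (R ^ 4 + 13 * R ^ 2 * y.2 ^ 2 - 18 * y.2 ^ 4)
        + (R ^ 4 + 13 * R ^ 2 * (y.1 + y.2) ^ 2 - 18 * (y.1 + y.2) ^ 4)
        = 3 * R ^ 4 + 13 * R ^ 2 * (y.1 ^ 2 + y.2 ^ 2 + (y.1 + y.2) ^ 2)
        - 9 * (y.1 ^ 2 + y.2 ^ 2 + (y.1 + y.2) ^ 2) ^ 2 := by ring
    rw [e]
    rcases le_total 0 (3 * R ^ 4 + 13 * R ^ 2 * (y.1 ^ 2 + y.2 ^ 2 + (y.1 + y.2) ^ 2)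
        - 9 * (y.1 ^ 2 + y.2 ^ 2 + (y.1 + y.2) ^ 2) ^ 2) with h3 | h3
    · rw [max_eq_left h3]
    · rw [max_eq_right h3]
      positivity
  set U : ℤ := 579423 + 145638 * (x : ℤ) ^ 1 + 13719 * (x : ℤ) ^ 2 + 574 * (x : ℤ) ^ 3 + 9 * (x : ℤ) ^ 4 with hUdef
  have hU0 : 0 ≤ U := by rw [hUdef]; positivity
  have h3 := h2.trans (mul_le_mul_of_nonneg_right hle hU0)
  set E : ℤ := ∑ x ∈ hexagon (r + s), (3 * R ^ 4
        + 13 * R ^ 2 * (x.1 ^ 2 + x.2 ^ 2 + (x.1 + x.2) ^ 2)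
        - 9 * (x.1 ^ 2 + x.2 ^ 2 + (x.1 + x.2) ^ 2) ^ 2) ^ 2 with hE
  have h4 : 9450 * (900 * T) ^ 2 ≤ 810000 * (1050 * E) * U := by
    have h5 := mul_le_mul_of_nonneg_left h3 (show (0 : ℤ) ≤ 850500000 by norm_num)
    calc 9450 * (900 * T) ^ 2 = 850500000 * (3 * T) ^ 2 := by ring
      _ ≤ 850500000 * (E * U) := h5
      _ = 810000 * (1050 * E) * U := by ring
  rw [hT, hD, hUdef] at h4
  have h6 : 0 < 20569517862787374194828017071000000 + 32400658529477839618793731431000000 * (x : ℤ) ^ 1 + 19568501474071117058494623517500000 * (x : ℤ) ^ 2 + 6642315817012030009770287194860000 * (x : ℤ) ^ 3 + 1469870641763379236233146836745000 * (x : ℤ) ^ 4 + 228432704484748540954042917540000 * (x : ℤ) ^ 5 + 25974687806844104470339048590000 * (x : ℤ) ^ 6 + 2209172733458259852022201980000 * (x : ℤ) ^ 7 + 141814152463869993111289785000 * (x :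 ℤ) ^ 8 + 6857442499210983184055220000 * (x : ℤ) ^ 9 + 246392916661303470988020000 * (x : ℤ) ^ 10 + 6389012667271881260160000 * (x : ℤ) ^ 11 + 113155486653767022720000 * (x : ℤ) ^ 12 + 1226412035665770240000 * (x : ℤ) ^ 13 + 6141592603664640000 * (x : ℤ) ^ 14 := by positivity
  apply absurd h4
  rw [not_le, ← sub_pos]
  refine lt_of_lt_of_eq h6 ?_
  ring

theorem large2 (x : ℕ) {r s : ℕ} (hs : s = x + 15) (hr : r = 5 * s + 2)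
    (h : IsHoneycombArray r D) : False := by
  have hsz : (s : ℤ) = x + 15 := by rw [hs]; push_cast; ring
  have hrz : (r : ℤ) = 5 * (x + 15) + 2 := by rw [hr, hs]; push_cast; ring
  set R : ℤ := ((r + s : ℕ) : ℤ) with hR
  have hRz : R = 6 * (x + 15) + 2 := by rw [hR]; push_cast; rw [hsz, hrz]; ring
  have hx : (0 : ℤ) ≤ x := Int.natCast_nonneg x
  have h1 := main_ineq (s := s) h (fun _ => 1) (by intro w; norm_num) (by intro w; rfl)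
    (by intro w; rfl) (fun k => R ^ 4 + 13 * R ^ 2 * k ^ 2 - 18 * k ^ 4)
  simp only at h1
  set T : ℤ := ∑ t ∈ Icc (-(s : ℤ)) s, rowSum s (fun _ => 1) t *
        ∑ c ∈ Icc (-(r : ℤ)) r, (R ^ 4 + 13 * R ^ 2 * (c + t) ^ 2 - 18 * (c + t) ^ 4) with hTdef
  have hT : 900 * T = 15572637578365200 + 7084230169994400 * (x : ℤ) ^ 1 + 1381154092656900 * (x : ℤ) ^ 2 + 149594288863800 * (x : ℤ) ^ 3 + 9721542886500 * (x : ℤ) ^ 4 + 379055517600 * (x : ℤ) ^ 5 + 8210966400 * (x : ℤ) ^ 6 + 76226400 * (x : ℤ) ^ 7 := by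
    rw [hTdef, Tclosed, hRz, hrz, hsz]
    ring
  have hT0 : 0 ≤ T := by
    have : 0 ≤ 900 * T := by rw [hT]; positivity
    linarith
  have h2 := h1 hT0
  have hU : (2 * (r : ℤ) + 3) * ∑ w ∈ hexagon s, (1 : ℤ) ^ 2 + (∑ w ∈ hexagon s, (1 : ℤ)) ^ 2
      - 3 * ∑ t ∈ Icc (-(s : ℤ)) s, rowSum s (fun _ => 1) t ^ 2
      = 580865 + 145824 * (x : ℤ) ^ 1 + 13725 * (x : ℤ) ^ 2 + 574 * (x : ℤ) ^ 3 + 9 * (x : ℤ) ^ 4 := by
    have m0 := hexmom0 s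
    simp only [pow_zero, one_mul] at m0
    rw [rowsq]
    simp only [one_pow]
    rw [m0, hrz, hsz]
    ring
  rw [hU] at h2
  have hD : 1050 * ∑ x ∈ hexagon (r + s), (3 * R ^ 4
        + 13 * R ^ 2 * (x.1 ^ 2 + x.2 ^ 2 + (x.1 + x.2) ^ 2)
        - 9 * (x.1 ^ 2 + x.2 ^ 2 + (x.1 + x.2) ^ 2) ^ 2) ^ 2
      = 4817364184774883551723200 + 3140969172763594888139040 * (x : ℤ) ^ 1 + 921576775672499766132384 * (x : ℤ) ^ 2 + 160234752647591837285760 * (x : ℤ) ^ 3 + 18283205324148443677440 * (x : ℤ) ^ 4 + 1430514473243581192320 * (x : ℤ) ^ 5 + 77726796824138015232 * (x : ℤ) ^ 6 + 2895966646679600640 * (x : ℤ) ^ 7 + 70808715715253760 * (x : ℤ) ^ 8 + 1025975864816640 * (x : ℤ) ^ 9 + 6689614915584 * (x : ℤ) ^ 10 := by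
    rw [hR, Dclosed, ← hR, hRz]
    ring
  have hle : ∑ x ∈ hexagon (r + s), (max (R ^ 4 + 13 * R ^ 2 * x.1 ^ 2 - 18 * x.1 ^ 4
        + (R ^ 4 + 13 * R ^ 2 * x.2 ^ 2 - 18 * x.2 ^ 4)
        + (R ^ 4 + 13 * R ^ 2 * (x.1 + x.2) ^ 2 - 18 * (x.1 + x.2) ^ 4)) 0) ^ 2
      ≤ ∑ x ∈ hexagon (r + s), (3 * R ^ 4
        + 13 * R ^ 2 * (x.1 ^ 2 + x.2 ^ 2 + (x.1 + x.2) ^ 2)
        - 9 * (x.1 ^ 2 + x.2 ^ 2 + (x.1 + x.2) ^ 2) ^ 2) ^ 2 := by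
    apply sum_le_sum
    intro y _
    have e : R ^ 4 + 13 * R ^ 2 * y.1 ^ 2 - 18 * y.1 ^ 4
        + (R ^ 4 + 13 * R ^ 2 * y.2 ^ 2 - 18 * y.2 ^ 4)
        + (R ^ 4 + 13 * R ^ 2 * (y.1 + y.2) ^ 2 - 18 * (y.1 + y.2) ^ 4)
        = 3 * R ^ 4 + 13 * R ^ 2 * (y.1 ^ 2 + y.2 ^ 2 + (y.1 + y.2) ^ 2)
        - 9 * (y.1 ^ 2 + y.2 ^ 2 + (y.1 + y.2) ^ 2) ^ 2 := by ring
    rw [e]
    rcases le_total 0 (3 * R ^ 4 + 13 * R ^ 2 * (y.1 ^ 2 + y.2 ^ 2 + (y.1 + y.2) ^ 2)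
        - 9 * (y.1 ^ 2 + y.2 ^ 2 + (y.1 + y.2) ^ 2) ^ 2) with h3 | h3
    · rw [max_eq_left h3]
    · rw [max_eq_right h3]
      positivity
  set U : ℤ := 580865 + 145824 * (x : ℤ) ^ 1 + 13725 * (x : ℤ) ^ 2 + 574 * (x : ℤ) ^ 3 + 9 * (x : ℤ) ^ 4 with hUdef
  have hU0 : 0 ≤ U := by rw [hUdef]; positivity
  have h3 := h2.trans (mul_le_mul_of_nonneg_right hle hU0)
  set E : ℤ := ∑ x ∈ hexagon (r + s), (3 * R ^ 4
        + 13 * R ^ 2 * (x.1 ^ 2 + x.2 ^ 2 + (x.1 + x.2) ^ 2)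
        - 9 * (x.1 ^ 2 + x.2 ^ 2 + (x.1 + x.2) ^ 2) ^ 2) ^ 2 with hE
  have h4 : 9450 * (900 * T) ^ 2 ≤ 810000 * (1050 * E) * U := by
    have h5 := mul_le_mul_of_nonneg_left h3 (show (0 : ℤ) ≤ 850500000 by norm_num)
    calc 9450 * (900 * T) ^ 2 = 850500000 * (3 * T) ^ 2 := by ring
      _ ≤ 850500000 * (E * U) := h5
      _ = 810000 * (1050 * E) * U := by ring
  rw [hT, hD, hUdef] at h4
  have h6 : 0 < 25118558616905212636863976248000000 + 38208052857388123736745844248000000 * (x : ℤ) ^ 1 + 22604354000159753553549171976800000 * (x : ℤ) ^ 2 + 7550862867894680620653541199040000 * (x : ℤ) ^ 3 + 1647777946799357478646444642500000 * (x : ℤ) ^ 4 + 252813509201423531104310985840000 * (x : ℤ) ^ 5 + 28398832340036558229705095640000 * (x : ℤ) ^ 6 + 2387105141133153183811135920000 * (x : ℤ) ^ 7 + 151487876423999621403886500000 * (x :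 ℤ) ^ 8 + 7243113511277653980222720000 * (x : ℤ) ^ 9 + 257371766336360550625920000 * (x : ℤ) ^ 10 + 6600619829167600271040000 * (x : ℤ) ^ 11 + 115633140453133632000000 * (x : ℤ) ^ 12 + 1239732920382013440000 * (x : ℤ) ^ 13 + 6141592603664640000 * (x : ℤ) ^ 14 := by positivity
  apply absurd h4
  rw [not_le, ← sub_pos]
  refine lt_of_lt_of_eq h6 ?_
  ring

theorem large3 (x : ℕ) {r s : ℕ} (hs : s = x + 15) (hr : r = 5 * s + 3)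
    (h : IsHoneycombArray r D) : False := by
  have hsz : (s : ℤ) = x + 15 := by rw [hs]; push_cast; ring
  have hrz : (r : ℤ) = 5 * (x + 15) + 3 := by rw [hr, hs]; push_cast; ring
  set R : ℤ := ((r + s : ℕ) : ℤ) with hR
  have hRz : R = 6 * (x + 15) + 3 := by rw [hR]; push_cast; rw [hsz, hrz]; ring
  have hx : (0 : ℤ) ≤ x := Int.natCast_nonneg x
  have h1 := main_ineq (s := s) h (fun _ => 1) (by intro w; norm_num) (by intro w; rfl)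
    (by intro w; rfl) (fun k => R ^ 4 + 13 * R ^ 2 * k ^ 2 - 18 * k ^ 4)
  simp only at h1
  set T : ℤ := ∑ t ∈ Icc (-(s : ℤ)) s, rowSum s (fun _ => 1) t *
        ∑ c ∈ Icc (-(r : ℤ)) r, (R ^ 4 + 13 * R ^ 2 * (c + t) ^ 2 - 18 * (c + t) ^ 4) with hTdef
  have hT : 900 * T = 16464297975399900 + 7430598193305060 * (x : ℤ) ^ 1 + 1437215592210570 * (x : ℤ) ^ 2 + 154433675908800 * (x : ℤ) ^ 3 + 9956527096950 * (x : ℤ) ^ 4 + 385140874140 * (x : ℤ) ^ 5 + 8276629680 * (x : ℤ) ^ 6 + 76226400 * (x : ℤ) ^ 7 := by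
    rw [hTdef, Tclosed, hRz, hrz, hsz]
    ring
  have hT0 : 0 ≤ T := by
    have : 0 ≤ 900 * T := by rw [hT]; positivity
    linarith
  have h2 := h1 hT0
  have hU : (2 * (r : ℤ) + 3) * ∑ w ∈ hexagon s, (1 : ℤ) ^ 2 + (∑ w ∈ hexagon s, (1 : ℤ)) ^ 2
      - 3 * ∑ t ∈ Icc (-(s : ℤ)) s, rowSum s (fun _ => 1) t ^ 2
      = 582307 + 146010 * (x : ℤ) ^ 1 + 13731 * (x : ℤ) ^ 2 + 574 * (x : ℤ) ^ 3 + 9 * (x : ℤ) ^ 4 := by
    have m0 := hexmom0 s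
    simp only [pow_zero, one_mul] at m0
    rw [rowsq]
    simp only [one_pow]
    rw [m0, hrz, hsz]
    ring
  rw [hU] at h2
  have hD : 1050 * ∑ x ∈ hexagon (r + s), (3 * R ^ 4
        + 13 * R ^ 2 * (x.1 ^ 2 + x.2 ^ 2 + (x.1 + x.2) ^ 2)
        - 9 * (x.1 ^ 2 + x.2 ^ 2 + (x.1 + x.2) ^ 2) ^ 2) ^ 2
      = 5367214522393691246020350 + 3461858484622496683118460 * (x : ℤ) ^ 1 + 1004808487884791809749624 * (x : ℤ) ^ 2 + 172828196974877702816160 * (x : ℤ) ^ 3 + 19508159978915820926400 * (x : ℤ) ^ 4 + 1509949041724581010560 * (x : ℤ) ^ 5 + 81160898098733332992 * (x : ℤ) ^ 6 + 2991407959950819840 * (x : ℤ) ^ 7 + 72356041531123200 * (x : ℤ) ^ 8 + 1037125223009280 * (x : ℤ) ^ 9 + 6689614915584 * (x : ℤ) ^ 10 := by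
    rw [hR, Dclosed, ← hR, hRz]
    ring
  have hle : ∑ x ∈ hexagon (r + s), (max (R ^ 4 + 13 * R ^ 2 * x.1 ^ 2 - 18 * x.1 ^ 4
        + (R ^ 4 + 13 * R ^ 2 * x.2 ^ 2 - 18 * x.2 ^ 4)
        + (R ^ 4 + 13 * R ^ 2 * (x.1 + x.2) ^ 2 - 18 * (x.1 + x.2) ^ 4)) 0) ^ 2
      ≤ ∑ x ∈ hexagon (r + s), (3 * R ^ 4
        + 13 * R ^ 2 * (x.1 ^ 2 + x.2 ^ 2 + (x.1 + x.2) ^ 2)
        - 9 * (x.1 ^ 2 + x.2 ^ 2 + (x.1 + x.2) ^ 2) ^ 2) ^ 2 := by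
    apply sum_le_sum
    intro y _
    have e : R ^ 4 + 13 * R ^ 2 * y.1 ^ 2 - 18 * y.1 ^ 4
        + (R ^ 4 + 13 * R ^ 2 * y.2 ^ 2 - 18 * y.2 ^ 4)
        + (R ^ 4 + 13 * R ^ 2 * (y.1 + y.2) ^ 2 - 18 * (y.1 + y.2) ^ 4)
        = 3 * R ^ 4 + 13 * R ^ 2 * (y.1 ^ 2 + y.2 ^ 2 + (y.1 + y.2) ^ 2)
        - 9 * (y.1 ^ 2 + y.2 ^ 2 + (y.1 + y.2) ^ 2) ^ 2 := by ring
    rw [e]
    rcases le_total 0 (3 * R ^ 4 + 13 * R ^ 2 * (y.1 ^ 2 + y.2 ^ 2 + (y.1 + y.2) ^ 2)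
        - 9 * (y.1 ^ 2 + y.2 ^ 2 + (y.1 + y.2) ^ 2) ^ 2) with h3 | h3
    · rw [max_eq_left h3]
    · rw [max_eq_right h3]
      positivity
  set U : ℤ := 582307 + 146010 * (x : ℤ) ^ 1 + 13731 * (x : ℤ) ^ 2 + 574 * (x : ℤ) ^ 3 + 9 * (x : ℤ) ^ 4 with hUdef
  have hU0 : 0 ≤ U := by rw [hUdef]; positivity
  have h3 := h2.trans (mul_le_mul_of_nonneg_right hle hU0)
  set E : ℤ := ∑ x ∈ hexagon (r + s), (3 * R ^ 4
        + 13 * R ^ 2 * (x.1 ^ 2 + x.2 ^ 2 + (x.1 + x.2) ^ 2)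
        - 9 * (x.1 ^ 2 + x.2 ^ 2 + (x.1 + x.2) ^ 2) ^ 2) ^ 2 with hE
  have h4 : 9450 * (900 * T) ^ 2 ≤ 810000 * (1050 * E) * U := by
    have h5 := mul_le_mul_of_nonneg_left h3 (show (0 : ℤ) ≤ 850500000 by norm_num)
    calc 9450 * (900 * T) ^ 2 = 850500000 * (3 * T) ^ 2 := by ring
      _ ≤ 850500000 * (E * U) := h5
      _ = 810000 * (1050 * E) * U := by ring
  rw [hT, hD, hUdef] at h4
  have h6 : 0 < 30093933542938409674527216660000000 + 44597663705788384849737220553400000 * (x : ℤ) ^ 1 + 25937346989982620005835181232140000 * (x : ℤ) ^ 2 + 8543017682763096224398342338180000 * (x : ℤ) ^ 3 + 1840716897841446638479874229465000 * (x : ℤ) ^ 4 + 279048406288258976632516145340000 * (x : ℤ) ^ 5 + 30985570532925557105092019910000 * (x : ℤ) ^ 6 + 2575318263158930813597243340000 * (x : ℤ) ^ 7 + 161628762495014772909650145000 * (x :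 ℤ) ^ 8 + 7643706791142629186461620000 * (x : ℤ) ^ 9 + 268669344505159577739060000 * (x : ℤ) ^ 10 + 6816320834730598860480000 * (x : ℤ) ^ 11 + 118134736338565088640000 * (x : ℤ) ^ 12 + 1253053805098256640000 * (x : ℤ) ^ 13 + 6141592603664640000 * (x : ℤ) ^ 14 := by positivity
  apply absurd h4
  rw [not_le, ← sub_pos]
  refine lt_of_lt_of_eq h6 ?_
  ring

theorem large4 (x : ℕ) {r s : ℕ} (hs : s = x + 15) (hr : r = 5 * s + 4)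
    (h : IsHoneycombArray r D) : False := by
  have hsz : (s : ℤ) = x + 15 := by rw [hs]; push_cast; ring
  have hrz : (r : ℤ) = 5 * (x + 15) + 4 := by rw [hr, hs]; push_cast; ring
  set R : ℤ := ((r + s : ℕ) : ℤ) with hR
  have hRz : R = 6 * (x + 15) + 4 := by rw [hR]; push_cast; rw [hsz, hrz]; ring
  have hx : (0 : ℤ) ≤ x := Int.natCast_nonneg x
  have h1 := main_ineq (s := s) h (fun _ => 1) (by intro w; norm_num) (by intro w; rfl)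
    (by intro w; rfl) (fun k => R ^ 4 + 13 * R ^ 2 * k ^ 2 - 18 * k ^ 4)
  simp only at h1
  set T : ℤ := ∑ t ∈ Icc (-(s : ℤ)) s, rowSum s (fun _ => 1) t *
        ∑ c ∈ Icc (-(r : ℤ)) r, (R ^ 4 + 13 * R ^ 2 * (c + t) ^ 2 - 18 * (c + t) ^ 4) with hTdef
  have hT : 900 * T = 17395838805124800 + 7789836574457520 * (x : ℤ) ^ 1 + 1494938538476940 * (x : ℤ) ^ 2 + 159380303092200 * (x : ℤ) ^ 3 + 10194972323100 * (x : ℤ) ^ 4 + 391270910880 * (x : ℤ) ^ 5 + 8342292960 * (x : ℤ) ^ 6 + 76226400 * (x : ℤ) ^ 7 := by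
    rw [hTdef, Tclosed, hRz, hrz, hsz]
    ring
  have hT0 : 0 ≤ T := by
    have : 0 ≤ 900 * T := by rw [hT]; positivity
    linarith
  have h2 := h1 hT0
  have hU : (2 * (r : ℤ) + 3) * ∑ w ∈ hexagon s, (1 : ℤ) ^ 2 + (∑ w ∈ hexagon s, (1 : ℤ)) ^ 2
      - 3 * ∑ t ∈ Icc (-(s : ℤ)) s, rowSum s (fun _ => 1) t ^ 2
      = 583749 + 146196 * (x : ℤ) ^ 1 + 13737 * (x : ℤ) ^ 2 + 574 * (x : ℤ) ^ 3 + 9 * (x : ℤ) ^ 4 := by
    have m0 := hexmom0 s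
    simp only [pow_zero, one_mul] at m0
    rw [rowsq]
    simp only [one_pow]
    rw [m0, hrz, hsz]
    ring
  rw [hU] at h2
  have hD : 1050 * ∑ x ∈ hexagon (r + s), (3 * R ^ 4
        + 13 * R ^ 2 * (x.1 ^ 2 + x.2 ^ 2 + (x.1 + x.2) ^ 2)
        - 9 * (x.1 ^ 2 + x.2 ^ 2 + (x.1 + x.2) ^ 2) ^ 2) ^ 2
      = 5972917662448234500542400 + 3811564147716221434806240 * (x : ℤ) ^ 1 + 1094544798901396278967584 * (x : ℤ) ^ 2 + 186260663457594750902400 * (x : ℤ) ^ 3 + 20800756531731417206400 * (x : ℤ) ^ 4 + 1592873787822094592640 * (x : ℤ) ^ 5 + 84707555383641157632 * (x : ℤ) ^ 6 + 3088923523668057600 * (x : ℤ) ^ 7 + 73920091384281600 * (x : ℤ) ^ 8 + 1048274581201920 * (x : ℤ) ^ 9 + 6689614915584 * (x : ℤ) ^ 10 := by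
    rw [hR, Dclosed, ← hR, hRz]
    ring
  have hle : ∑ x ∈ hexagon (r + s), (max (R ^ 4 + 13 * R ^ 2 * x.1 ^ 2 - 18 * x.1 ^ 4
        + (R ^ 4 + 13 * R ^ 2 * x.2 ^ 2 - 18 * x.2 ^ 4)
        + (R ^ 4 + 13 * R ^ 2 * (x.1 + x.2) ^ 2 - 18 * (x.1 + x.2) ^ 4)) 0) ^ 2
      ≤ ∑ x ∈ hexagon (r + s), (3 * R ^ 4
        + 13 * R ^ 2 * (x.1 ^ 2 + x.2 ^ 2 + (x.1 + x.2) ^ 2)
        - 9 * (x.1 ^ 2 + x.2 ^ 2 + (x.1 + x.2) ^ 2) ^ 2) ^ 2 := by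
    apply sum_le_sum
    intro y _
    have e : R ^ 4 + 13 * R ^ 2 * y.1 ^ 2 - 18 * y.1 ^ 4
        + (R ^ 4 + 13 * R ^ 2 * y.2 ^ 2 - 18 * y.2 ^ 4)
        + (R ^ 4 + 13 * R ^ 2 * (y.1 + y.2) ^ 2 - 18 * (y.1 + y.2) ^ 4)
        = 3 * R ^ 4 + 13 * R ^ 2 * (y.1 ^ 2 + y.2 ^ 2 + (y.1 + y.2) ^ 2)
        - 9 * (y.1 ^ 2 + y.2 ^ 2 + (y.1 + y.2) ^ 2) ^ 2 := by ring
    rw [e]
    rcases le_total 0 (3 * R ^ 4 + 13 * R ^ 2 * (y.1 ^ 2 + y.2 ^ 2 + (y.1 + y.2) ^ 2)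
        - 9 * (y.1 ^ 2 + y.2 ^ 2 + (y.1 + y.2) ^ 2) ^ 2) with h3 | h3
    · rw [max_eq_left h3]
    · rw [max_eq_right h3]
      positivity
  set U : ℤ := 583749 + 146196 * (x : ℤ) ^ 1 + 13737 * (x : ℤ) ^ 2 + 574 * (x : ℤ) ^ 3 + 9 * (x : ℤ) ^ 4 with hUdef
  have hU0 : 0 ≤ U := by rw [hUdef]; positivity
  have h3 := h2.trans (mul_le_mul_of_nonneg_right hle hU0)
  set E : ℤ := ∑ x ∈ hexagon (r + s), (3 * R ^ 4
        + 13 * R ^ 2 * (x.1 ^ 2 + x.2 ^ 2 + (x.1 + x.2) ^ 2)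
        - 9 * (x.1 ^ 2 + x.2 ^ 2 + (x.1 + x.2) ^ 2) ^ 2) ^ 2 with hE
  have h4 : 9450 * (900 * T) ^ 2 ≤ 810000 * (1050 * E) * U := by
    have h5 := mul_le_mul_of_nonneg_left h3 (show (0 : ℤ) ≤ 850500000 by norm_num)
    calc 9450 * (900 * T) ^ 2 = 850500000 * (3 * T) ^ 2 := by ring
      _ ≤ 850500000 * (E * U) := h5
      _ = 810000 * (1050 * E) * U := by ring
  rw [hT, hD, hUdef] at h4
  have h6 : 0 < 35499095930660590162255163472000000 + 51600133348262273777822833204800000 * (x : ℤ) ^ 1 + 29586484457018656271600461470720000 * (x : ℤ) ^ 2 + 9624228537025898749727964931680000 * (x : ℤ) ^ 3 + 2049619560864793638213760497540000 * (x : ℤ) ^ 4 + 307242333435286877004326287440000 * (x : ℤ) ^ 5 + 33743015403985818745367340600000 * (x : ℤ) ^ 6 + 2774248045296797934097017840000 * (x : ℤ) ^ 7 + 172252882152965590843022820000 * (x :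 ℤ) ^ 8 + 8059611299049119855617920000 * (x : ℤ) ^ 9 + 280291231031496523727040000 * (x : ℤ) ^ 10 + 7036151711871690780480000 * (x : ℤ) ^ 11 + 120660274310061392640000 * (x : ℤ) ^ 12 + 1266374689814499840000 * (x : ℤ) ^ 13 + 6141592603664640000 * (x : ℤ) ^ 14 := by positivity
  apply absurd h4
  rw [not_le, ← sub_pos]
  refine lt_of_lt_of_eq h6 ?_
  ring

/-- There is no honeycomb array of radius at least `75`. -/
theorem large (h : IsHoneycombArray r D) : r < 75 := by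
  by_contra hr
  push Not at hr
  obtain ⟨x, hx⟩ : ∃ x, r / 5 = x + 15 := ⟨r / 5 - 15, by omega⟩
  have h5 : r % 5 < 5 := Nat.mod_lt _ (by norm_num)
  have h6 : r = 5 * (r / 5) + r % 5 := by omega
  rcases (by omega : r % 5 = 0 ∨ r % 5 = 1 ∨ r % 5 = 2 ∨ r % 5 = 3 ∨ r % 5 = 4) with
    h7 | h7 | h7 | h7 | h7
  · exact large0 x hx (by omega) h
  · exact large1 x hx (by omega) h
  · exact large2 x hx (by omega) h
  · exact large3 x hx (by omega) h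
  · exact large4 x hx (by omega) h

end Pool.Agent.H28.Honey
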