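import Pool.Agent.H28.Honey.Sound
import Pool.Agent.H28.Honey.Large

set_option autoImplicit false
set_option maxRecDepth 100000

namespace Pool.Agent.H28.Honey

variable {r : ℕ} {D : Finset (ℤ × ℤ)}

theorem c42 : check 42 13 130 = true := by decide +kernel

theorem c43 : check 43 13 134 = true := by decide +kernel

theorem c44 : check 44 13 138 = true := by decide +kernel

theorem c45 : check 45 13 142 = true := by decide +kernel

theorem c46 : check 46 13 146 = true := by decide +kernel

theorem c47 : check 47 14 152 = true := by decide +kernel

theorem c48 : check 48 14 156 = true := by decide +kernel

theorem c49 : check 49 14 160 = true := by decide +kernel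

theorem c50 : check 50 14 164 = true := by decide +kernel

theorem c51 : check 51 14 168 = true := by decide +kernel

theorem c52 : check 52 15 174 = true := by decide +kernel

theorem c53 : check 53 15 178 = true := by decide +kernel

theorem c54 : check 54 15 184 = true := by decide +kernel

theorem c55 : check 55 15 188 = true := by decide +kernel

theorem c56 : check 56 15 192 = true := by decide +kernel

theorem c57 : check 57 16 198 = true := by decide +kernel

theorem c58 : check 58 16 204 = true := by decide +kernel

theorem c59 : check 59 16 208 = true := by decide +kernel

theorem c60 : check 60 16 212 = true := by decide +kernel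

theorem c61 : check 61 16 216 = true := by decide +kernel

theorem c62 : check 62 17 222 = true := by decide +kernel

theorem c63 : check 63 17 228 = true := by decide +kernel

theorem c64 : check 64 17 232 = true := by decide +kernel

theorem c65 : check 65 17 238 = true := by decide +kernel

theorem c66 : check 66 17 242 = true := by decide +kernel

theorem c67 : check 67 18 248 = true := by decide +kernel

theorem c68 : check 68 18 254 = true := by decide +kernel

theorem c69 : check 69 18 258 = true := by decide +kernel

theorem c70 : check 70 18 264 = true := by decide +kernel

theorem c71 : check 71 18 268 = true := by decide +kernel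

theorem c72 : check 72 19 274 = true := by decide +kernel

theorem c73 : check 73 19 280 = true := by decide +kernel

theorem c74 : check 74 19 286 = true := by decide +kernel

/-- There is no honeycomb array of radius at least `42`. -/
theorem radius_lt (h : IsHoneycombArray r D) : r < 42 := by
  by_contra hr
  have h75 := large h
  obtain ⟨h1, h2⟩ : 42 ≤ r ∧ r ≤ 74 := by omega
  interval_cases r
  · exact check_sound c42 h
  · exact check_sound c43 h
  · exact check_sound c44 h
  · exact check_sound c45 h
  · exact check_sound c46 h
  · exact check_sound c47 h
  · exact check_sound c48 h
  · exact check_sound c49 h
  · exact check_sound c50 h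
  · exact check_sound c51 h
  · exact check_sound c52 h
  · exact check_sound c53 h
  · exact check_sound c54 h
  · exact check_sound c55 h
  · exact check_sound c56 h
  · exact check_sound c57 h
  · exact check_sound c58 h
  · exact check_sound c59 h
  · exact check_sound c60 h
  · exact check_sound c61 h
  · exact check_sound c62 h
  · exact check_sound c63 h
  · exact check_sound c64 h
  · exact check_sound c65 h
  · exact check_sound c66 h
  · exact check_sound c67 h
  · exact check_sound c68 h
  · exact check_sound c69 h
  · exact check_sound c70 h
  · exact check_sound c71 h
  · exact check_sound c72 h
  · exact check_sound c73 h
  · exact check_sound c74 h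

end Pool.Agent.H28.Honey
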