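import Pool.Agent.H28.Honey.Energy

set_option autoImplicit false

namespace Pool.Agent.H28.Honey

open Finset

variable {r s : ℕ} {D : Finset (ℤ × ℤ)}

lemma IsHoneycombArray.sum_fst (h : IsHoneycombArray r D) (g : ℤ → ℤ) :
    ∑ d ∈ D, g d.1 = ∑ c ∈ Icc (-(r : ℤ)) r, g c := by
  apply Finset.sum_nbij (fun d => d.1)
  · intro d hd
    have := (mem_hexagon.mp (h.subset hd)).1
    rwa [mem_Icc, ← abs_le]
  · intro x hx y hy hxy
    exact h.eq_of_fst hx hy hxy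
  · intro c hc
    rw [Finset.mem_coe, mem_Icc] at hc
    obtain ⟨x, ⟨h1, h2⟩, _⟩ := h.line_fst c hc.1 hc.2
    exact ⟨x, h1, h2⟩
  · intro _ _
    rfl

lemma IsHoneycombArray.sum_snd (h : IsHoneycombArray r D) (g : ℤ → ℤ) :
    ∑ d ∈ D, g d.2 = ∑ c ∈ Icc (-(r : ℤ)) r, g c := by
  apply Finset.sum_nbij (fun d => d.2)
  · intro d hd
    have := (mem_hexagon.mp (h.subset hd)).2.1
    rwa [mem_Icc, ← abs_le]
  · intro x hx y hy hxy
    exact h.eq_of_snd hx hy hxy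
  · intro c hc
    rw [Finset.mem_coe, mem_Icc] at hc
    obtain ⟨x, ⟨h1, h2⟩, _⟩ := h.line_snd c hc.1 hc.2
    exact ⟨x, h1, h2⟩
  · intro _ _
    rfl

lemma IsHoneycombArray.sum_sum (h : IsHoneycombArray r D) (g : ℤ → ℤ) :
    ∑ d ∈ D, g (d.1 + d.2) = ∑ c ∈ Icc (-(r : ℤ)) r, g c := by
  apply Finset.sum_nbij (fun d => d.1 + d.2)
  · intro d hd
    have := (mem_hexagon.mp (h.subset hd)).2.2
    rwa [mem_Icc, ← abs_le]
  · intro x hx y hy hxy
    exact h.eq_of_sum hx hy hxy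
  · intro c hc
    rw [Finset.mem_coe, mem_Icc] at hc
    obtain ⟨x, ⟨h1, h2⟩, _⟩ := h.line_sum c hc.1 hc.2
    exact ⟨x, h1, h2⟩
  · intro _ _
    rfl

lemma hex_swap (f : ℤ × ℤ → ℤ) :
    ∑ w ∈ hexagon s, f (w.2, w.1) = ∑ w ∈ hexagon s, f w := by
  apply Finset.sum_nbij (fun w => (w.2, w.1))
  · intro w hw
    rw [mem_hexagon] at *
    rw [add_comm]
    tauto
  · rintro ⟨a, b⟩ _ ⟨c, d⟩ _ h
    simp only [Prod.mk.injEq] at h ⊢
    tauto
  · rintro ⟨a, b⟩ h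
    refine ⟨(b, a), ?_, rfl⟩
    rw [Finset.mem_coe, mem_hexagon] at *
    simp only at *
    rw [add_comm]
    tauto
  · intro _ _
    rfl

lemma hex_shear (f : ℤ × ℤ → ℤ) :
    ∑ w ∈ hexagon s, f (w.1 + w.2, -w.2) = ∑ w ∈ hexagon s, f w := by
  apply Finset.sum_nbij (fun w => (w.1 + w.2, -w.2))
  · intro w hw
    rw [mem_hexagon] at *
    simp only [abs_neg, add_neg_cancel_right]
    tauto
  · rintro ⟨a, b⟩ _ ⟨c, d⟩ _ h
    simp only [Prod.mk.injEq] at h ⊢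
    omega
  · rintro ⟨a, b⟩ h
    refine ⟨(a + b, -b), ?_, ?_⟩
    · rw [Finset.mem_coe, mem_hexagon] at *
      simp only [abs_neg, add_neg_cancel_right] at *
      tauto
    · simp
  · intro _ _
    rfl

/-- The row sums of a kernel. -/
noncomputable def rowSum (s : ℕ) (φ : ℤ × ℤ → ℤ) (t : ℤ) : ℤ :=
  ∑ w ∈ (hexagon s).filter (fun w => w.1 = t), φ w

lemma sum_hex_eq_rows (φ : ℤ × ℤ → ℤ) (g : ℤ → ℤ) :
    ∑ w ∈ hexagon s, φ w * g w.1 = ∑ t ∈ Icc (-(s : ℤ)) s, rowSum s φ t * g t := by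
  rw [← Finset.sum_fiberwise_of_maps_to (s := hexagon s) (t := Icc (-(s : ℤ)) s)
    (g := fun w => w.1)]
  · apply Finset.sum_congr rfl
    intro t _
    rw [rowSum, Finset.sum_mul]
    apply Finset.sum_congr rfl
    intro w hw
    rw [(mem_filter.mp hw).2]
  · intro w hw
    have := (mem_hexagon.mp hw).1
    rwa [mem_Icc, ← abs_le]

lemma sum_hex_eq_rows' (φ : ℤ × ℤ → ℤ) :
    ∑ w ∈ hexagon s, φ w = ∑ t ∈ Icc (-(s : ℤ)) s, rowSum s φ t := by
  have := sum_hex_eq_rows (s := s) φ (fun _ => 1)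
  simpa using this

/-- The linear statistic is determined by the one-dimensional marginals. -/
lemma gamma_eq (h : IsHoneycombArray r D) (φ : ℤ × ℤ → ℤ)
    (hsw : ∀ w : ℤ × ℤ, φ (w.2, w.1) = φ w) (hsh : ∀ w : ℤ × ℤ, φ (w.1 + w.2, -w.2) = φ w)
    (P : ℤ → ℤ) :
    ∑ d ∈ D, ∑ w ∈ hexagon s, φ w *
        (P (d + w).1 + P (d + w).2 + P ((d + w).1 + (d + w).2))
      = 3 * ∑ t ∈ Icc (-(s : ℤ)) s, rowSum s φ t * ∑ c ∈ Icc (-(r : ℤ)) r, P (c + t) := by
  have key : ∀ t : ℤ, ∑ d ∈ D, P (d.1 + t) = ∑ c ∈ Icc (-(r : ℤ)) r, P (c + t) :=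
    fun t => h.sum_fst fun c => P (c + t)
  have key2 : ∀ t : ℤ, ∑ d ∈ D, P (d.2 + t) = ∑ c ∈ Icc (-(r : ℤ)) r, P (c + t) :=
    fun t => h.sum_snd fun c => P (c + t)
  have key3 : ∀ t : ℤ, ∑ d ∈ D, P (d.1 + d.2 + t) = ∑ c ∈ Icc (-(r : ℤ)) r, P (c + t) :=
    fun t => h.sum_sum fun c => P (c + t)
  set Q : ℤ → ℤ := fun t => ∑ c ∈ Icc (-(r : ℤ)) r, P (c + t) with hQ
  have e1 : ∑ w ∈ hexagon s, φ w * Q w.2 = ∑ w ∈ hexagon s, φ w * Q w.1 := by
    rw [← hex_swap (fun w => φ w * Q w.1)]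
    apply Finset.sum_congr rfl
    intro w _
    simp only
    rw [hsw]
  have e2 : ∑ w ∈ hexagon s, φ w * Q (w.1 + w.2) = ∑ w ∈ hexagon s, φ w * Q w.1 := by
    rw [← hex_shear (fun w => φ w * Q w.1)]
    apply Finset.sum_congr rfl
    intro w _
    simp only
    rw [hsh]
  calc _ = ∑ w ∈ hexagon s, φ w * (Q w.1 + Q w.2 + Q (w.1 + w.2)) := by
        rw [Finset.sum_comm]
        apply Finset.sum_congr rfl
        intro w _
        rw [← Finset.mul_sum, Finset.sum_add_distrib, Finset.sum_add_distrib]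
        congr 1
        have k1 := key w.1
        have k2 := key2 w.2
        have k3 := key3 (w.1 + w.2)
        rw [hQ]
        simp only
        rw [← k1, ← k2, ← k3]
        simp only [Prod.fst_add, Prod.snd_add]
        congr 1
        apply Finset.sum_congr rfl
        intro d _
        congr 1
        ring
    _ = 3 * ∑ w ∈ hexagon s, φ w * Q w.1 := by
        simp only [mul_add]
        rw [Finset.sum_add_distrib, Finset.sum_add_distrib, e1, e2]
        ring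
    _ = _ := by
        rw [sum_hex_eq_rows]

lemma sum_pairs_row (φ : ℤ × ℤ → ℤ) :
    ∑ p ∈ hexagon s ×ˢ hexagon s, (if p.1.1 = p.2.1 then φ p.1 * φ p.2 else 0)
      = ∑ t ∈ Icc (-(s : ℤ)) s, rowSum s φ t ^ 2 := by
  rw [Finset.sum_product]
  have h1 : ∀ w : ℤ × ℤ, ∑ w' ∈ hexagon s, (if w.1 = w'.1 then φ w * φ w' else 0)
      = φ w * rowSum s φ w.1 := by
    intro w
    rw [rowSum, Finset.mul_sum, Finset.sum_filter]
    apply Finset.sum_congr rfl
    intro w' _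
    by_cases hw : w.1 = w'.1
    · rw [if_pos hw, if_pos hw.symm]
    · rw [if_neg hw, if_neg (Ne.symm hw)]
  simp only [h1]
  rw [sum_hex_eq_rows]
  apply Finset.sum_congr rfl
  intro t _
  ring

/-- Evaluation of the off-axis sum. -/
lemma offAxis_sum (φ : ℤ × ℤ → ℤ)
    (hsw : ∀ w : ℤ × ℤ, φ (w.2, w.1) = φ w) (hsh : ∀ w : ℤ × ℤ, φ (w.1 + w.2, -w.2) = φ w) :
    ∑ p ∈ (hexagon s ×ˢ hexagon s).filter OffAxis, φ p.1 * φ p.2
      = (∑ w ∈ hexagon s, φ w) ^ 2 + 2 * ∑ w ∈ hexagon s, φ w ^ 2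
        - 3 * ∑ t ∈ Icc (-(s : ℤ)) s, rowSum s φ t ^ 2 := by
  rw [Finset.sum_filter]
  have h1 : ∀ p : (ℤ × ℤ) × (ℤ × ℤ), (if OffAxis p then φ p.1 * φ p.2 else 0)
      = φ p.1 * φ p.2 - (if p.1.1 = p.2.1 then φ p.1 * φ p.2 else 0)
        - (if p.1.2 = p.2.2 then φ p.1 * φ p.2 else 0)
        - (if p.1.1 + p.1.2 = p.2.1 + p.2.2 then φ p.1 * φ p.2 else 0)
        + 2 * (if p.1 = p.2 then φ p.1 * φ p.2 else 0) := by
    rintro ⟨⟨a, b⟩, ⟨c, d⟩⟩
    simp only [OffAxis, Prod.mk.injEq]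
    by_cases h1 : a = c
    · by_cases h2 : b = d
      · have h3 : a + b = c + d := by omega
        simp only [h1, h2, ne_eq, not_true_eq_false, false_and, if_false, if_true, and_self]
        ring
      · have h3 : ¬ a + b = c + d := by omega
        simp only [h1, h2, h3, ne_eq, not_true_eq_false, false_and, if_false, if_true, and_false]
        have h4 : ¬ c + b = c + d := by omega
        rw [if_neg h4]
        ring
    · by_cases h2 : b = d
      · have h3 : ¬ a + b = c + d := by omega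
        have h4 : ¬ a + d = c + d := by omega
        simp only [h1, h2, h4, ne_eq, not_true_eq_false, false_and, if_false, if_true, and_false]
        ring
      · by_cases h3 : a + b = c + d
        · simp only [h1, h2, h3, ne_eq, not_true_eq_false, if_false, if_true, and_false]
          ring
        · simp only [h1, h2, h3, ne_eq, not_false_eq_true, if_false, if_true, and_false,
            and_self]
          ring
  simp only [h1]
  rw [Finset.sum_add_distrib, Finset.sum_sub_distrib, Finset.sum_sub_distrib,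
    Finset.sum_sub_distrib, ← Finset.mul_sum]
  have e0 : ∑ p ∈ hexagon s ×ˢ hexagon s, φ p.1 * φ p.2 = (∑ w ∈ hexagon s, φ w) ^ 2 := by
    rw [sq, Finset.sum_mul_sum, ← Finset.sum_product']
  have e1 := sum_pairs_row (s := s) φ
  have e2 : ∑ p ∈ hexagon s ×ˢ hexagon s, (if p.1.2 = p.2.2 then φ p.1 * φ p.2 else 0)
      = ∑ t ∈ Icc (-(s : ℤ)) s, rowSum s φ t ^ 2 := by
    rw [← e1, Finset.sum_product, Finset.sum_product]
    rw [← hex_swap (fun w => ∑ w' ∈ hexagon s, (if w.1 = w'.1 then φ w * φ w' else 0))]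
    apply Finset.sum_congr rfl
    intro w _
    simp only
    rw [← hex_swap (fun w' => (if w.2 = w'.1 then φ (w.2, w.1) * φ w' else 0))]
    apply Finset.sum_congr rfl
    intro w' _
    simp only
    rw [hsw, hsw]
  have e3 : ∑ p ∈ hexagon s ×ˢ hexagon s,
      (if p.1.1 + p.1.2 = p.2.1 + p.2.2 then φ p.1 * φ p.2 else 0)
      = ∑ t ∈ Icc (-(s : ℤ)) s, rowSum s φ t ^ 2 := by
    rw [← e1, Finset.sum_product, Finset.sum_product]
    rw [← hex_shear (fun w => ∑ w' ∈ hexagon s, (if w.1 = w'.1 then φ w * φ w' else 0))]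
    apply Finset.sum_congr rfl
    intro w _
    simp only
    rw [← hex_shear (fun w' => (if w.1 + w.2 = w'.1 then φ (w.1 + w.2, -w.2) * φ w' else 0))]
    apply Finset.sum_congr rfl
    intro w' _
    simp only
    rw [hsh, hsh]
  have e4 : ∑ p ∈ hexagon s ×ˢ hexagon s, (if p.1 = p.2 then φ p.1 * φ p.2 else 0)
      = ∑ w ∈ hexagon s, φ w ^ 2 := by
    rw [Finset.sum_product]
    apply Finset.sum_congr rfl
    intro w hw
    rw [Finset.sum_ite_eq, if_pos hw, sq]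
  rw [e0, e1, e2, e3, e4]
  ring

/-- The main inequality: necessary condition for the existence of a honeycomb array. -/
theorem main_ineq (h : IsHoneycombArray r D) (φ : ℤ × ℤ → ℤ) (hφ : ∀ w, 0 ≤ φ w)
    (hsw : ∀ w : ℤ × ℤ, φ (w.2, w.1) = φ w) (hsh : ∀ w : ℤ × ℤ, φ (w.1 + w.2, -w.2) = φ w)
    (P : ℤ → ℤ)
    (h0 : 0 ≤ ∑ t ∈ Icc (-(s : ℤ)) s, rowSum s φ t * ∑ c ∈ Icc (-(r : ℤ)) r, P (c + t)) :
    (3 * ∑ t ∈ Icc (-(s : ℤ)) s, rowSum s φ t * ∑ c ∈ Icc (-(r : ℤ)) r, P (c + t)) ^ 2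
      ≤ (∑ x ∈ hexagon (r + s), (max (P x.1 + P x.2 + P (x.1 + x.2)) 0) ^ 2)
        * ((2 * r + 3) * ∑ w ∈ hexagon s, φ w ^ 2 + (∑ w ∈ hexagon s, φ w) ^ 2
          - 3 * ∑ t ∈ Icc (-(s : ℤ)) s, rowSum s φ t ^ 2) := by
  have h1 := energy (s := s) h φ (fun x => P x.1 + P x.2 + P (x.1 + x.2)) hφ
  rw [gamma_eq h φ hsw hsh P, offAxis_sum φ hsw hsh] at h1
  have h2 := h1 (by positivity)
  refine h2.trans (le_of_eq ?_)
  ring

end Pool.Agent.H28.Honey
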