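import Pool.Agent.H28.Honey.Ineq

set_option autoImplicit false

namespace Pool.Agent.H28.Honey

open Finset

lemma hex_rot {s : ℕ} (f : ℤ × ℤ → ℤ) :
    ∑ w ∈ hexagon s, f (-w.2, w.1 + w.2) = ∑ w ∈ hexagon s, f w := by
  apply Finset.sum_nbij (fun w => (-w.2, w.1 + w.2))
  · intro w hw
    rw [mem_hexagon] at *
    simp only [abs_neg]
    have : -w.2 + (w.1 + w.2) = w.1 := by ring
    rw [this]
    tauto
  · rintro ⟨a, b⟩ _ ⟨c, d⟩ _ h
    simp only [Prod.mk.injEq] at h ⊢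
    omega
  · rintro ⟨a, b⟩ h
    refine ⟨(a + b, -a), ?_, ?_⟩
    · rw [Finset.mem_coe, mem_hexagon] at *
      simp only [abs_neg] at *
      have : a + b + -a = b := by ring
      rw [this]
      tauto
    · simp only [neg_neg, Prod.mk.injEq, true_and]
      ring
  · intro _ _
    rfl

/-- The sector `a > 0`, `b ≤ 0`, `a + b > 0`. -/
def sect (x : ℤ × ℤ) : Prop := 0 < x.1 ∧ x.2 ≤ 0 ∧ 0 < x.1 + x.2

instance : DecidablePred sect := fun x => by unfold sect; infer_instance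

lemma sum_sect {s : ℕ} (G : ℤ × ℤ → ℤ) :
    ∑ w ∈ hexagon s, (if sect w then G w else 0)
      = ∑ k ∈ range (s + 1), ∑ i ∈ range k, G ((k : ℤ), -(i : ℤ)) := by
  rw [← Finset.sum_filter, Finset.sum_sigma']
  apply Finset.sum_bij' (fun w _ => (⟨w.1.toNat, (-w.2).toNat⟩ : (_ : ℕ) × ℕ))
    (fun p _ => ((p.1 : ℤ), -(p.2 : ℤ)))
  · rintro ⟨a, b⟩ hw
    rw [mem_filter, mem_hexagon] at hw
    simp only [sect, abs_le] at hw
    obtain ⟨⟨h1, h2, h3⟩, h4, h5, h6⟩ := hw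
    rw [mem_sigma, mem_range, mem_range]
    simp only
    omega
  · rintro ⟨k, i⟩ hp
    rw [mem_sigma, mem_range, mem_range] at hp
    simp only at hp
    rw [mem_filter, mem_hexagon]
    simp only [sect, abs_le]
    omega
  · rintro ⟨a, b⟩ hw
    rw [mem_filter, mem_hexagon] at hw
    simp only [sect, abs_le] at hw
    obtain ⟨⟨h1, h2, h3⟩, h4, h5, h6⟩ := hw
    simp only [Prod.mk.injEq]
    omega
  · rintro ⟨k, i⟩ _
    simp
  · rintro ⟨a, b⟩ hw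
    rw [mem_filter, mem_hexagon] at hw
    simp only [sect, abs_le] at hw
    obtain ⟨⟨h1, h2, h3⟩, h4, h5, h6⟩ := hw
    have e1 : ((a.toNat : ℕ) : ℤ) = a := Int.toNat_of_nonneg (by omega)
    have e2 : (((-b).toNat : ℕ) : ℤ) = -b := Int.toNat_of_nonneg (by omega)
    simp only [e1, e2, neg_neg]

/-- Decomposition of a rotation invariant sum over the hexagon. -/
theorem sum_hexagon_shell {s : ℕ} (G : ℤ × ℤ → ℤ) (hG : ∀ w : ℤ × ℤ, G (-w.2, w.1 + w.2) = G w) :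
    ∑ w ∈ hexagon s, G w
      = G (0, 0) + 6 * ∑ k ∈ range (s + 1), ∑ i ∈ range k, G ((k : ℤ), -(i : ℤ)) := by
  rw [← sum_sect]
  set f : ℤ × ℤ → ℤ := fun w => if sect w then G w else 0 with hf
  set ρ : ℤ × ℤ → ℤ × ℤ := fun w => (-w.2, w.1 + w.2) with hρ
  have h0 : ∀ g : ℤ × ℤ → ℤ, ∑ w ∈ hexagon s, g (ρ w) = ∑ w ∈ hexagon s, g w :=
    fun g => hex_rot g
  have h1 : ∑ w ∈ hexagon s, f (ρ w) = ∑ w ∈ hexagon s, f w := h0 f
  have h2 : ∑ w ∈ hexagon s, f (ρ (ρ w)) = ∑ w ∈ hexagon s, f w := by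
    rw [h0 (fun w => f (ρ w)), h1]
  have h3 : ∑ w ∈ hexagon s, f (ρ (ρ (ρ w))) = ∑ w ∈ hexagon s, f w := by
    rw [h0 (fun w => f (ρ (ρ w))), h2]
  have h4 : ∑ w ∈ hexagon s, f (ρ (ρ (ρ (ρ w)))) = ∑ w ∈ hexagon s, f w := by
    rw [h0 (fun w => f (ρ (ρ (ρ w)))), h3]
  have h5 : ∑ w ∈ hexagon s, f (ρ (ρ (ρ (ρ (ρ w))))) = ∑ w ∈ hexagon s, f w := by
    rw [h0 (fun w => f (ρ (ρ (ρ (ρ w))))), h4]
  have hz : ∑ w ∈ hexagon s, (if w = (0, 0) then G (0, 0) else 0) = G (0, 0) := by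
    rw [Finset.sum_ite_eq', if_pos]
    rw [mem_hexagon]
    simp
  have hpt : ∀ w : ℤ × ℤ, G w = (if w = (0, 0) then G (0, 0) else 0) + (f w + f (ρ w)
      + f (ρ (ρ w)) + f (ρ (ρ (ρ w))) + f (ρ (ρ (ρ (ρ w)))) + f (ρ (ρ (ρ (ρ (ρ w)))))) := by
    intro w
    have g1 : G (ρ w) = G w := hG w
    have g2 : G (ρ (ρ w)) = G w := by rw [← g1]; exact hG (ρ w)
    have g3 : G (ρ (ρ (ρ w))) = G w := by rw [← g2]; exact hG (ρ (ρ w))
    have g4 : G (ρ (ρ (ρ (ρ w)))) = G w := by rw [← g3]; exact hG (ρ (ρ (ρ w)))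
    have g5 : G (ρ (ρ (ρ (ρ (ρ w))))) = G w := by rw [← g4]; exact hG (ρ (ρ (ρ (ρ w))))
    simp only [hf, g1, g2, g3, g4, g5]
    obtain ⟨a, b⟩ := w
    have s0 : sect (a, b) ↔ 0 < a ∧ b ≤ 0 ∧ 0 < a + b := Iff.rfl
    have s1 : sect (ρ (a, b)) ↔ b < 0 ∧ a + b ≤ 0 ∧ 0 < a := by
      simp only [sect, hρ]; omega
    have s2 : sect (ρ (ρ (a, b))) ↔ a + b < 0 ∧ a ≤ 0 ∧ b < 0 := by
      simp only [sect, hρ]; omega
    have s3 : sect (ρ (ρ (ρ (a, b)))) ↔ a < 0 ∧ 0 ≤ b ∧ a + b < 0 := by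
      simp only [sect, hρ]; omega
    have s4 : sect (ρ (ρ (ρ (ρ (a, b))))) ↔ 0 < b ∧ 0 ≤ a + b ∧ a < 0 := by
      simp only [sect, hρ]; omega
    have s5 : sect (ρ (ρ (ρ (ρ (ρ (a, b)))))) ↔ 0 < a + b ∧ 0 ≤ a ∧ 0 < b := by
      simp only [sect, hρ]; omega
    simp only [s0, s1, s2, s3, s4, s5, Prod.mk.injEq]
    by_cases hz : a = 0 ∧ b = 0
    · obtain ⟨rfl, rfl⟩ := hz
      simp
    · rw [if_neg hz]
      by_cases c0 : 0 < a ∧ b ≤ 0 ∧ 0 < a + b
      · rw [if_pos c0, if_neg (by omega), if_neg (by omega), if_neg (by omega),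
          if_neg (by omega), if_neg (by omega)]
        ring
      rw [if_neg c0]
      by_cases c1 : b < 0 ∧ a + b ≤ 0 ∧ 0 < a
      · rw [if_pos c1, if_neg (by omega), if_neg (by omega), if_neg (by omega),
          if_neg (by omega)]
        ring
      rw [if_neg c1]
      by_cases c2 : a + b < 0 ∧ a ≤ 0 ∧ b < 0
      · rw [if_pos c2, if_neg (by omega), if_neg (by omega), if_neg (by omega)]
        ring
      rw [if_neg c2]
      by_cases c3 : a < 0 ∧ 0 ≤ b ∧ a + b < 0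
      · rw [if_pos c3, if_neg (by omega), if_neg (by omega)]
        ring
      rw [if_neg c3]
      by_cases c4 : 0 < b ∧ 0 ≤ a + b ∧ a < 0
      · rw [if_pos c4, if_neg (by omega)]
        ring
      rw [if_neg c4, if_pos (by omega)]
      ring
  calc ∑ w ∈ hexagon s, G w = ∑ w ∈ hexagon s, ((if w = (0, 0) then G (0, 0) else 0)
        + (f w + f (ρ w) + f (ρ (ρ w)) + f (ρ (ρ (ρ w))) + f (ρ (ρ (ρ (ρ w))))
          + f (ρ (ρ (ρ (ρ (ρ w))))))) := Finset.sum_congr rfl fun w _ => hpt w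
    _ = _ := by
        simp only [Finset.sum_add_distrib]
        rw [h1, h2, h3, h4, h5, hz]
        ring

/-- Sums of even functions over a symmetric interval. -/
theorem sum_Icc_even (f : ℤ → ℤ) (hf : ∀ t, f (-t) = f t) (n : ℕ) :
    ∑ t ∈ Icc (-(n : ℤ)) n, f t = f 0 + 2 * ∑ k ∈ range n, f ((k : ℤ) + 1) := by
  induction n with
  | zero => simp
  | succ n ih =>
    have h1 : Icc (-((n + 1 : ℕ) : ℤ)) ((n + 1 : ℕ) : ℤ)
        = insert ((n : ℤ) + 1) (insert (-((n : ℤ) + 1)) (Icc (-(n : ℤ)) n)) := by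
      ext x
      simp only [mem_Icc, mem_insert]
      push_cast
      omega
    rw [h1, Finset.sum_insert, Finset.sum_insert, ih, hf, Finset.sum_range_succ]
    · ring
    · simp
    · simp only [mem_insert, mem_Icc]
      omega

/-- Sums over an interval as sums over a range. -/
theorem sum_Icc_range (f : ℤ → ℤ) (n : ℕ) :
    ∑ t ∈ Icc (-(n : ℤ)) n, f t = ∑ i ∈ range (2 * n + 1), f ((i : ℤ) - n) := by
  symm
  apply Finset.sum_bij' (fun (i : ℕ) _ => (i : ℤ) - n) (fun t _ => (t + n).toNat)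
  · intro i hi
    rw [mem_range] at hi
    rw [mem_Icc]
    omega
  · intro t ht
    rw [mem_Icc] at ht
    rw [mem_range]
    omega
  · intro i _
    simp
  · intro t ht
    rw [mem_Icc] at ht
    omega
  · intro i _
    rfl

lemma rowSum_neg {s : ℕ} (φ : ℤ × ℤ → ℤ) (hφ : ∀ w : ℤ × ℤ, φ (-w.1, -w.2) = φ w) (t : ℤ) :
    rowSum s φ (-t) = rowSum s φ t := by
  rw [rowSum, rowSum]
  apply Finset.sum_nbij (fun w => (-w.1, -w.2))
  · intro w hw
    rw [mem_filter, mem_hexagon] at *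
    simp only [abs_neg]
    obtain ⟨⟨h1, h2, h3⟩, h4⟩ := hw
    refine ⟨⟨h1, h2, ?_⟩, by omega⟩
    have : -w.1 + -w.2 = -(w.1 + w.2) := by ring
    rw [this, abs_neg]
    exact h3
  · rintro ⟨a, b⟩ _ ⟨c, d⟩ _ h
    simp only [Prod.mk.injEq] at h ⊢
    omega
  · rintro ⟨a, b⟩ h
    refine ⟨(-a, -b), ?_, by simp⟩
    rw [Finset.mem_coe, mem_filter, mem_hexagon] at *
    simp only [abs_neg] at *
    obtain ⟨⟨h1, h2, h3⟩, h4⟩ := h
    refine ⟨⟨h1, h2, ?_⟩, by omega⟩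
    have : -a + -b = -(a + b) := by ring
    rw [this, abs_neg]
    exact h3
  · intro w _
    exact (hφ w).symm

/-- Row sums for nonnegative rows. -/
lemma rowSum_eq {s : ℕ} (φ : ℤ × ℤ → ℤ) (t : ℕ) (ht : t ≤ s) :
    rowSum s φ t = ∑ j ∈ range (2 * s + 1 - t), φ ((t : ℤ), (j : ℤ) - s) := by
  rw [rowSum]
  symm
  apply Finset.sum_bij' (fun (j : ℕ) _ => ((t : ℤ), (j : ℤ) - s)) (fun w _ => (w.2 + s).toNat)
  · intro j hj
    rw [mem_range] at hj
    rw [mem_filter, mem_hexagon]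
    simp only [abs_le, and_true]
    omega
  · rintro ⟨a, b⟩ hw
    rw [mem_filter, mem_hexagon] at hw
    simp only [abs_le] at hw
    rw [mem_range]
    simp only
    omega
  · intro j _
    simp
  · rintro ⟨a, b⟩ hw
    rw [mem_filter, mem_hexagon] at hw
    simp only [abs_le] at hw
    simp only [Prod.mk.injEq]
    omega
  · intro j _
    rfl

end Pool.Agent.H28.Honey
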