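import Pool.Agent.H28.Honey.Shell
import Pool.Agent.H28.Honey.EvalDefs

set_option autoImplicit false

namespace Pool.Agent.H28.Honey

open Finset

variable {r s : ℕ} {D : Finset (ℤ × ℤ)}

lemma sumTo_eq (f : ℕ → ℕ) (n : ℕ) : sumTo f n = ∑ i ∈ range n, f i := by
  induction n with
  | zero => rfl
  | succ n ih =>
    rw [sum_range_succ, ← ih]
    rfl

lemma cast_tsub (a b : ℕ) : ((a - b : ℕ) : ℤ) = max ((a : ℤ) - b) 0 := by
  rcases le_total a b with h | h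
  · rw [Nat.sub_eq_zero_of_le h, max_eq_right (by omega)]
    rfl
  · rw [max_eq_left (by omega)]
    push_cast [h]
    ring

lemma absd_sq (i n : ℕ) : ((absd i n : ℕ) : ℤ) ^ 2 = ((i : ℤ) - n) ^ 2 := by
  unfold absd
  rcases le_total i n with h | h
  · rw [Nat.sub_eq_zero_of_le h]
    push_cast [h]
    ring
  · rw [Nat.sub_eq_zero_of_le h]
    push_cast [h]
    ring

/-- The kernel. -/
noncomputable def ker (C : ℕ) (w : ℤ × ℤ) : ℤ := max ((C : ℤ) - (w.1 ^ 2 + w.1 * w.2 + w.2 ^ 2)) 0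

lemma ker_nonneg (C : ℕ) (w : ℤ × ℤ) : 0 ≤ ker C w := le_max_right _ _

lemma ker_swap (C : ℕ) (w : ℤ × ℤ) : ker C (w.2, w.1) = ker C w := by
  unfold ker
  congr 1
  ring

lemma ker_shear (C : ℕ) (w : ℤ × ℤ) : ker C (w.1 + w.2, -w.2) = ker C w := by
  unfold ker
  congr 1
  ring

lemma ker_neg (C : ℕ) (w : ℤ × ℤ) : ker C (-w.1, -w.2) = ker C w := by
  unfold ker
  congr 1
  ring

lemma phiN_cast (s C t j : ℕ) : ((phiN s C t j : ℕ) : ℤ) = ker C ((t : ℤ), (j : ℤ) - s) := by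
  unfold phiN ker
  rw [cast_tsub]
  congr 1
  push_cast
  ring

lemma rowN_cast (s C t : ℕ) (ht : t ≤ s) : ((rowN s C t : ℕ) : ℤ) = rowSum s (ker C) t := by
  rw [rowN, sumTo_eq, rowSum_eq _ _ ht]
  push_cast
  exact sum_congr rfl fun j _ => phiN_cast s C t j

lemma row2N_cast (s C t : ℕ) (ht : t ≤ s) :
    ((row2N s C t : ℕ) : ℤ) = rowSum s (fun w => ker C w ^ 2) t := by
  rw [row2N, sumTo_eq, rowSum_eq _ _ ht]
  push_cast
  exact sum_congr rfl fun j _ => by rw [phiN_cast s C t j]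

lemma W1_cast (s C : ℕ) : ((W1 s C : ℕ) : ℤ) = ∑ w ∈ hexagon s, ker C w := by
  rw [sum_hex_eq_rows', sum_Icc_even _ (rowSum_neg _ (ker_neg C)), W1, sumTo_eq]
  push_cast
  rw [rowN_cast s C 0 (Nat.zero_le _)]
  congr 2
  apply sum_congr rfl
  intro k hk
  rw [mem_range] at hk
  rw [rowN_cast s C (k + 1) (by omega)]
  push_cast
  rfl

lemma W2_cast (s C : ℕ) : ((W2 s C : ℕ) : ℤ) = ∑ w ∈ hexagon s, ker C w ^ 2 := by
  rw [sum_hex_eq_rows' (fun w => ker C w ^ 2),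
    sum_Icc_even _ (rowSum_neg (fun w => ker C w ^ 2) (fun w => by simp only [ker_neg C w])),
    W2, sumTo_eq]
  push_cast
  rw [row2N_cast s C 0 (Nat.zero_le _)]
  congr 2
  apply sum_congr rfl
  intro k hk
  rw [mem_range] at hk
  rw [row2N_cast s C (k + 1) (by omega)]
  push_cast
  rfl

lemma L_cast (s C : ℕ) : ((L s C : ℕ) : ℤ)
    = ∑ t ∈ Icc (-(s : ℤ)) s, rowSum s (ker C) t ^ 2 := by
  rw [sum_Icc_even (fun t => rowSum s (ker C) t ^ 2)
    (fun t => by simp only [rowSum_neg _ (ker_neg C)]), L, sumTo_eq]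
  push_cast
  rw [rowN_cast s C 0 (Nat.zero_le _)]
  congr 2
  apply sum_congr rfl
  intro k hk
  rw [mem_range] at hk
  rw [rowN_cast s C (k + 1) (by omega)]
  push_cast
  rfl

/-- The one-dimensional potential. -/
def pot (R : ℤ) (k : ℤ) : ℤ :=
  10 * R ^ 8 + 59 * R ^ 6 * k ^ 2 + 266 * R ^ 4 * k ^ 4 - 960 * R ^ 2 * k ^ 6 + 571 * k ^ 8

lemma pot_neg (R k : ℤ) : pot R (-k) = pot R k := by
  unfold pot
  ring

lemma pot_cast (R k : ℕ) : ((Ppos R k : ℕ) : ℤ) - ((Pneg R k : ℕ) : ℤ) = pot R k := by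
  unfold Ppos Pneg pot
  push_cast
  ring

lemma pot_absd (R : ℤ) (i n : ℕ) : pot R ((absd i n : ℕ) : ℤ) = pot R ((i : ℤ) - n) := by
  have h := absd_sq i n
  have h4 : ((absd i n : ℕ) : ℤ) ^ 4 = ((i : ℤ) - n) ^ 4 := by
    calc ((absd i n : ℕ) : ℤ) ^ 4 = (((absd i n : ℕ) : ℤ) ^ 2) ^ 2 := by ring
      _ = _ := by rw [h]; ring
  have h6 : ((absd i n : ℕ) : ℤ) ^ 6 = ((i : ℤ) - n) ^ 6 := by
    calc ((absd i n : ℕ) : ℤ) ^ 6 = (((absd i n : ℕ) : ℤ) ^ 2) ^ 3 := by ring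
      _ = _ := by rw [h]; ring
  have h8 : ((absd i n : ℕ) : ℤ) ^ 8 = ((i : ℤ) - n) ^ 8 := by
    calc ((absd i n : ℕ) : ℤ) ^ 8 = (((absd i n : ℕ) : ℤ) ^ 2) ^ 4 := by ring
      _ = _ := by rw [h]; ring
  unfold pot
  rw [h, h4, h6, h8]

lemma Q_cast (R r t : ℕ) : ((Qpos R r t : ℕ) : ℤ) - ((Qneg R r t : ℕ) : ℤ)
    = ∑ c ∈ Icc (-(r : ℤ)) r, pot R (c + t) := by
  rw [sum_Icc_range, Qpos, Qneg, sumTo_eq, sumTo_eq]
  push_cast
  rw [← sum_sub_distrib]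
  apply sum_congr rfl
  intro i _
  rw [pot_cast, pot_absd]
  congr 1
  push_cast
  ring

lemma Q_even (R : ℤ) (r : ℕ) (t : ℤ) : ∑ c ∈ Icc (-(r : ℤ)) r, pot R (c + -t)
    = ∑ c ∈ Icc (-(r : ℤ)) r, pot R (c + t) := by
  apply Finset.sum_nbij (fun c => -c)
  · intro c hc
    rw [mem_Icc] at *
    omega
  · intro a _ b _ hab
    simpa using hab
  · intro c hc
    refine ⟨-c, ?_, by simp⟩
    rw [Finset.mem_coe, mem_Icc] at *
    omega
  · intro c _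
    rw [← pot_neg]
    congr 1
    ring

lemma G_cast (R r s C : ℕ) : ((Gpos R r s C : ℕ) : ℤ) - ((Gneg R r s C : ℕ) : ℤ)
    = ∑ t ∈ Icc (-(s : ℤ)) s, rowSum s (ker C) t * ∑ c ∈ Icc (-(r : ℤ)) r, pot R (c + t) := by
  rw [sum_Icc_even (fun t => rowSum s (ker C) t * ∑ c ∈ Icc (-(r : ℤ)) r, pot R (c + t))
    (fun t => by simp only [rowSum_neg _ (ker_neg C), Q_even])]
  have h0 := Q_cast R r 0
  have hrow0 := rowN_cast s C 0 (Nat.zero_le _)
  have h1 : ∑ k ∈ range s, rowSum s (ker C) ((k : ℤ) + 1)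
      * ∑ c ∈ Icc (-(r : ℤ)) r, pot R (c + ((k : ℤ) + 1))
      = ∑ k ∈ range s, (((rowN s C (k + 1) : ℕ) : ℤ) * ((Qpos R r (k + 1) : ℕ) : ℤ)
        - ((rowN s C (k + 1) : ℕ) : ℤ) * ((Qneg R r (k + 1) : ℕ) : ℤ)) := by
    apply sum_congr rfl
    intro k hk
    rw [mem_range] at hk
    have h2 := rowN_cast s C (k + 1) (by omega)
    have h3 := Q_cast R r (k + 1)
    push_cast at h2 h3
    rw [← mul_sub, h3, ← h2]
  rw [h1, sum_sub_distrib]
  push_cast at h0 hrow0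
  rw [← hrow0, ← h0, Gpos, Gneg, sumTo_eq, sumTo_eq]
  push_cast
  ring

lemma cell_cast (R k i : ℕ) (hi : i ≤ k) : ((cell R k i : ℕ) : ℤ)
    = (max (pot R (k : ℤ) + pot R (-(i : ℤ)) + pot R ((k : ℤ) + -(i : ℤ))) 0) ^ 2 := by
  unfold cell
  rw [Nat.cast_pow, cast_tsub]
  congr 2
  rw [pot_neg]
  have h1 := pot_cast R k
  have h2 := pot_cast R i
  have h3 := pot_cast R (k - i)
  rw [Nat.cast_sub hi] at h3
  rw [← sub_eq_add_neg, ← h1, ← h2, ← h3]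
  push_cast
  ring

lemma den_cast (R : ℕ) : ((denN R : ℕ) : ℤ)
    = ∑ x ∈ hexagon R, (max (pot R x.1 + pot R x.2 + pot R (x.1 + x.2)) 0) ^ 2 := by
  rw [sum_hexagon_shell (fun x => (max (pot R x.1 + pot R x.2 + pot R (x.1 + x.2)) 0) ^ 2)]
  · rw [denN, sumTo_eq]
    simp only [sumTo_eq]
    push_cast
    congr 1
    · have h0 : pot (R : ℤ) 0 = ((Ppos R 0 : ℕ) : ℤ) := by
        unfold pot Ppos
        push_cast
        ring
      have h1 : (0 : ℤ) ≤ ((Ppos R 0 : ℕ) : ℤ) := Int.natCast_nonneg _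
      rw [h0, max_eq_left (by linarith)]
      ring
    · congr 1
      apply sum_congr rfl
      intro k _
      apply sum_congr rfl
      intro i hi
      rw [mem_range] at hi
      exact cell_cast R k i hi.le
  · intro w
    have : -w.2 + (w.1 + w.2) = w.1 := by ring
    rw [this, pot_neg]
    congr 2
    ring

/-- Soundness of the certificate check. -/
theorem check_sound {C : ℕ} (hc : check r s C = true) (h : IsHoneycombArray r D) : False := by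
  unfold check at hc
  rw [Bool.and_eq_true, Nat.ble_eq, Nat.blt_eq] at hc
  obtain ⟨hle, hc⟩ := hc
  have h1 := main_ineq (s := s) h (ker C) (ker_nonneg C) (ker_swap C) (ker_shear C)
    (pot ((r + s : ℕ) : ℤ))
  rw [← G_cast, ← L_cast, ← W1_cast, ← W2_cast, ← den_cast] at h1
  set den := denN (r + s)
  set gp := Gpos (r + s) r s C
  set gn := Gneg (r + s) r s C
  have h2 := h1 (by omega)
  zify [hle] at hc
  have e : (3 * ((gp : ℤ) - (gn : ℤ))) ^ 2 = 9 * ((gp : ℤ) - gn) ^ 2 := by ring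
  rw [e] at h2
  have e2 : (den : ℤ) * ((2 * (r : ℤ) + 3) * (W2 s C : ℤ) + (W1 s C : ℤ) ^ 2 - 3 * (L s C : ℤ))
      = (den : ℤ) * ((2 * (r : ℤ) + 3) * (W2 s C : ℤ) + (W1 s C : ℤ) ^ 2)
        - (den : ℤ) * (3 * (L s C : ℤ)) := by ring
  rw [e2] at h2
  linarith

end Pool.Agent.H28.Honey
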